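import Mathlib

open MeasureTheory Set EuclideanGeometry
open scoped ENNReal Real

namespace Pool.Agent.Lib.MP_92974c_pr

/-- all three angles of the triangle are at most φ -/
def Tri (φ : ℝ) (x y z : ℂ) : Prop := ∠ x y z ≤ φ ∧ ∠ y z x ≤ φ ∧ ∠ z x y ≤ φ

lemma Tri.rot {φ : ℝ} {x y z : ℂ} : Tri φ x y z ↔ Tri φ y z x := by
  unfold Tri; tauto

lemma measurable_angle {α : Type*} [MeasurableSpace α] {f g h : α → ℂ} (hf : Measurable f)
    (hg : Measurable g) (hh : Measurable h) : Measurable fun a => ∠ (f a) (g a) (h a) := by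
  unfold EuclideanGeometry.angle InnerProductGeometry.angle
  simp only [vsub_eq_sub]
  apply Real.measurable_arccos.comp
  exact ((hf.sub hg).inner (hh.sub hg)).div (((hf.sub hg).norm).mul ((hh.sub hg).norm))

lemma measurableSet_tri {α : Type*} [MeasurableSpace α] {f g h : α → ℂ} (φ : ℝ)
    (hf : Measurable f) (hg : Measurable g) (hh : Measurable h) :
    MeasurableSet {a | Tri φ (f a) (g a) (h a)} := by
  unfold Tri
  exact (measurableSet_le (measurable_angle hf hg hh) measurable_const).inter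
    ((measurableSet_le (measurable_angle hg hh hf) measurable_const).inter
      (measurableSet_le (measurable_angle hh hf hg) measurable_const))

lemma angle_affine (a b : ℂ) (ha : a ≠ 0) (x y z : ℂ) :
    ∠ (b + a * x) (b + a * y) (b + a * z) = ∠ x y z := by
  unfold EuclideanGeometry.angle
  simp only [vsub_eq_sub]
  have h1 : b + a * x - (b + a * y) = a * (x - y) := by ring
  have h2 : b + a * z - (b + a * y) = a * (z - y) := by ring
  rw [h1, h2, Complex.angle_mul_left ha]

lemma tri_affine (φ : ℝ) (a b : ℂ) (ha : a ≠ 0) (x y z : ℂ) :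
    Tri φ (b + a * x) (b + a * y) (b + a * z) ↔ Tri φ x y z := by
  unfold Tri
  simp only [angle_affine a b ha]

lemma tri_affine' (φ : ℝ) (a b : ℂ) (ha : a ≠ 0) (w : ℂ) :
    Tri φ b (b + a) (b + a * w) ↔ Tri φ 0 1 w := by
  have := tri_affine φ a b ha 0 1 w
  simpa using this

lemma lint_mul (f : ℂ → ℝ≥0∞) (hf : Measurable f) (a : ℂ) (ha : a ≠ 0) :
    ∫⁻ z, f z = ENNReal.ofReal (‖a‖ ^ 2) * ∫⁻ w, f (a * w) := by
  let L : ℂ →ₗ[ℝ] ℂ := Algebra.lmul ℝ ℂ a
  have hdet : LinearMap.det L = ‖a‖ ^ 2 := by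
    rw [← Complex.normSq_eq_norm_sq, ← Algebra.norm_complex_apply, Algebra.norm_apply]
  have hpos : 0 < ‖a‖ ^ 2 := by positivity
  have hm := Measure.map_linearMap_addHaar_eq_smul_addHaar (volume : Measure ℂ) (f := L)
    (by rw [hdet]; exact hpos.ne')
  have hL : Measurable L := L.continuous_of_finiteDimensional.measurable
  have h1 : ∫⁻ w, f (a * w) = ∫⁻ z, f z ∂(Measure.map L volume) := by
    rw [lintegral_map hf hL]; rfl
  rw [h1, hm, lintegral_smul_measure, hdet, smul_eq_mul, ← mul_assoc, ← ENNReal.ofReal_mul hpos.le,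
    abs_of_pos (inv_pos.mpr hpos), mul_inv_cancel₀ hpos.ne']
  simp

lemma lint_affine (f : ℂ → ℝ≥0∞) (hf : Measurable f) (a b : ℂ) (ha : a ≠ 0) :
    ∫⁻ z, f z = ENNReal.ofReal (‖a‖ ^ 2) * ∫⁻ w, f (b + a * w) := by
  rw [← lintegral_add_left_eq_self f b]
  exact lint_mul (fun z => f (b + z)) (hf.comp (measurable_const_add b)) a ha

/-- point with polar coordinates -/
noncomputable def pol (r θ : ℝ) : ℂ := r * (Real.cos θ + Real.sin θ * Complex.I)

lemma norm_pol {r : ℝ} (hr : 0 ≤ r) (θ : ℝ) : ‖pol r θ‖ = r := by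
  have := Complex.norm_polarCoord_symm (r, θ)
  rw [Complex.polarCoord_symm_apply] at this
  rw [pol, this, abs_of_nonneg hr]

lemma pol_re (r θ : ℝ) : (pol r θ).re = r * Real.cos θ := by
  simp [pol, Complex.cos_ofReal_re, Complex.sin_ofReal_re]

lemma pol_im (r θ : ℝ) : (pol r θ).im = r * Real.sin θ := by
  simp [pol, Complex.cos_ofReal_re, Complex.sin_ofReal_re]

lemma measurable_pol : Measurable fun p : ℝ × ℝ => pol p.1 p.2 := by
  unfold pol; fun_prop

lemma lint_polar (f : ℂ → ℝ≥0∞) (hf : Measurable f) :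
    ∫⁻ z, f z = ∫⁻ θ in Ioo (-π) π, ∫⁻ r in Ioi (0 : ℝ), ENNReal.ofReal r * f (pol r θ) := by
  rw [← Complex.lintegral_comp_polarCoord_symm f]
  have ht : polarCoord.target = Set.Ioi (0 : ℝ) ×ˢ Set.Ioo (-π) π := rfl
  rw [ht, Measure.volume_eq_prod, ← Measure.prod_restrict]
  simp only [Complex.polarCoord_symm_apply, smul_eq_mul]
  rw [lintegral_prod_symm]
  · rfl
  · exact ((ENNReal.measurable_ofReal.comp measurable_fst).mul (hf.comp measurable_pol)).aemeasurable

lemma ofReal_integral_le {α : Type*} [MeasurableSpace α] {μ : Measure α} {g : α → ℝ}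
    (hg : Integrable g μ) : ENNReal.ofReal (∫ a, g a ∂μ) ≤ ∫⁻ a, ENNReal.ofReal (g a) ∂μ := by
  have h1 : ∫ a, g a ∂μ ≤ ∫ a, max (g a) 0 ∂μ :=
    integral_mono hg hg.pos_part (fun a => le_max_left _ _)
  refine (ENNReal.ofReal_le_ofReal h1).trans ?_
  rw [ofReal_integral_eq_lintegral_ofReal hg.pos_part (Filter.Eventually.of_forall fun a => le_max_right _ _)]
  apply le_of_eq
  congr 1
  funext a
  simp [ENNReal.ofReal_max]

end Pool.Agent.Lib.MP_92974c_pr
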