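import Pool.Agent.Lib.MP_92974c_pr.Near

open MeasureTheory Set EuclideanGeometry
open scoped ENNReal Real

namespace Pool.Agent.Lib.MP_92974c_pr

/-- radial extent of the lens -/
noncomputable def ml (σ θ : ℝ) : ℝ := max 0 (2 * min (Real.cos θ) (Real.cos (θ + σ * (π / 3))))

lemma ml_nonneg (σ θ : ℝ) : 0 ≤ ml σ θ := le_max_left _ _

lemma ml_le (σ θ : ℝ) : ml σ θ ≤ 2 := by
  apply max_le (by norm_num)
  have := (min_le_left (Real.cos θ) (Real.cos (θ + σ * (π / 3)))).trans (Real.cos_le_one θ)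
  linarith

lemma continuous_ml (σ : ℝ) : Continuous (ml σ) := by
  unfold ml; fun_prop

lemma ml_neg (θ : ℝ) : ml (-1) θ = ml 1 (-θ) := by
  unfold ml
  rw [Real.cos_neg, ← Real.cos_neg (-θ + 1 * (π / 3))]
  congr 4; ring

lemma integral_cos4 (a b : ℝ) : ∫ t in a..b, Real.cos t ^ 4 =
    (3 * b / 8 + 3 / 8 * (Real.sin b * Real.cos b) + Real.sin b * Real.cos b ^ 3 / 4) -
    (3 * a / 8 + 3 / 8 * (Real.sin a * Real.cos a) + Real.sin a * Real.cos a ^ 3 / 4) := by
  apply intervalIntegral.integral_eq_sub_of_hasDerivAt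
    (f := fun t => 3 * t / 8 + 3 / 8 * (Real.sin t * Real.cos t) + Real.sin t * Real.cos t ^ 3 / 4)
  · intro t _
    have hs := Real.hasDerivAt_sin t
    have hc := Real.hasDerivAt_cos t
    have hid := hasDerivAt_id' t
    have := ((((hid.const_mul 3).div_const 8).add ((hs.mul hc).const_mul (3 / 8))).add
      ((hs.mul (hc.pow 3)).div_const 4))
    refine HasDerivAt.congr_deriv this ?_
    have h5 := Real.sin_sq_add_cos_sq t
    simp only [Pi.pow_apply, Nat.cast_ofNat]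
    linear_combination (-3 / 8 - 3 / 4 * Real.cos t ^ 2) * h5
  · apply Continuous.intervalIntegrable; fun_prop

lemma integral_ml_one : ∫ θ in (-π)..π, ml 1 θ ^ 4 / 4 ≤ π - 9 * √3 / 8 := by
  have hpi := Real.pi_pos
  have s3 : √3 * √3 = 3 := Real.mul_self_sqrt (by norm_num)
  have hc : Continuous fun θ => ml 1 θ ^ 4 / 4 := ((continuous_ml 1).pow 4).div_const 4
  have hi : ∀ a b, IntervalIntegrable (fun θ => ml 1 θ ^ 4 / 4) volume a b :=
    fun a b => hc.intervalIntegrable a b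
  rw [← intervalIntegral.integral_add_adjacent_intervals (hi _ (-(π / 2))) (hi _ _),
    ← intervalIntegral.integral_add_adjacent_intervals (hi (-(π / 2)) (-(π / 6))) (hi _ _),
    ← intervalIntegral.integral_add_adjacent_intervals (hi (-(π / 6)) (π / 6)) (hi _ _)]
  have p1 : ∫ θ in (-π)..(-(π / 2)), ml 1 θ ^ 4 / 4 ≤ ∫ _ in (-π)..(-(π / 2)), (0 : ℝ) := by
    apply intervalIntegral.integral_mono_on (by linarith) (hi _ _) (by simp)
    intro θ hθ
    have h1 : Real.cos θ ≤ 0 := by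
      rw [← Real.cos_neg]
      apply Real.cos_nonpos_of_pi_div_two_le_of_le <;> linarith [hθ.1, hθ.2]
    have : ml 1 θ = 0 := by
      apply max_eq_left
      have := min_le_left (Real.cos θ) (Real.cos (θ + 1 * (π / 3)))
      linarith
    simp [this]
  have p4 : ∫ θ in (π / 6)..π, ml 1 θ ^ 4 / 4 ≤ ∫ _ in (π / 6)..π, (0 : ℝ) := by
    apply intervalIntegral.integral_mono_on (by linarith) (hi _ _) (by simp)
    intro θ hθ
    have h1 : Real.cos (θ + 1 * (π / 3)) ≤ 0 := by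
      apply Real.cos_nonpos_of_pi_div_two_le_of_le <;> linarith [hθ.1, hθ.2]
    have : ml 1 θ = 0 := by
      apply max_eq_left
      have := min_le_right (Real.cos θ) (Real.cos (θ + 1 * (π / 3)))
      linarith
    simp [this]
  have p2 : ∫ θ in (-(π / 2))..(-(π / 6)), ml 1 θ ^ 4 / 4 ≤
      ∫ θ in (-(π / 2))..(-(π / 6)), 4 * Real.cos θ ^ 4 := by
    apply intervalIntegral.integral_mono_on (by linarith) (hi _ _)
      (Continuous.intervalIntegrable (by fun_prop) _ _)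
    intro θ hθ
    have h1 : 0 ≤ Real.cos θ := by
      apply Real.cos_nonneg_of_neg_pi_div_two_le_of_le <;> linarith [hθ.1, hθ.2]
    have h2 : ml 1 θ ≤ 2 * Real.cos θ := by
      apply max_le (by linarith)
      have := min_le_left (Real.cos θ) (Real.cos (θ + 1 * (π / 3)))
      linarith
    have h3 : ml 1 θ ^ 4 ≤ (2 * Real.cos θ) ^ 4 := pow_le_pow_left₀ (ml_nonneg _ _) h2 4
    linarith
  have p3 : ∫ θ in (-(π / 6))..(π / 6), ml 1 θ ^ 4 / 4 ≤
      ∫ θ in (-(π / 6))..(π / 6), 4 * Real.cos (θ + π / 3) ^ 4 := by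
    apply intervalIntegral.integral_mono_on (by linarith) (hi _ _)
      (Continuous.intervalIntegrable (by fun_prop) _ _)
    intro θ hθ
    have h1 : 0 ≤ Real.cos (θ + π / 3) := by
      apply Real.cos_nonneg_of_neg_pi_div_two_le_of_le <;> linarith [hθ.1, hθ.2]
    have h2 : ml 1 θ ≤ 2 * Real.cos (θ + π / 3) := by
      apply max_le (by linarith)
      have := min_le_right (Real.cos θ) (Real.cos (θ + 1 * (π / 3)))
      rw [one_mul] at this ⊢
      linarith
    have h3 : ml 1 θ ^ 4 ≤ (2 * Real.cos (θ + π / 3)) ^ 4 := pow_le_pow_left₀ (ml_nonneg _ _) h2 4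
    linarith
  rw [intervalIntegral.integral_const_mul, intervalIntegral.integral_comp_add_right
    (fun t => Real.cos t ^ 4), integral_cos4] at p3
  rw [intervalIntegral.integral_const_mul, integral_cos4] at p2
  rw [show -(π / 6) + π / 3 = π / 6 by ring, show π / 6 + π / 3 = π / 2 by ring] at p3
  simp only [intervalIntegral.integral_zero] at p1 p4
  simp only [Real.cos_neg, Real.sin_neg, Real.cos_pi_div_six, Real.sin_pi_div_six,
    Real.cos_pi_div_two, Real.sin_pi_div_two] at p2 p3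
  have e : (√3 / 2) ^ 3 = 3 * √3 / 8 := by linear_combination (√3 / 8) * s3
  rw [e] at p2 p3
  linarith

lemma integral_ml {σ : ℝ} (hσ : σ = 1 ∨ σ = -1) :
    ∫ θ in (-π)..π, ml σ θ ^ 4 / 4 ≤ π - 9 * √3 / 8 := by
  rcases hσ with rfl | rfl
  · exact integral_ml_one
  · simp_rw [ml_neg]
    rw [intervalIntegral.integral_comp_neg (fun θ => ml 1 θ ^ 4 / 4), neg_neg]
    exact integral_ml_one

lemma lint_pow_Ioc (n : ℕ) {M : ℝ} (hM : 0 ≤ M) :
    ∫⁻ r in Ioc (0 : ℝ) M, ENNReal.ofReal (r ^ n) = ENNReal.ofReal (M ^ (n + 1) / (n + 1)) := by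
  rw [← ofReal_integral_eq_lintegral_ofReal, ← intervalIntegral.integral_of_le hM, integral_pow]
  · simp
  · apply (Continuous.integrableOn_Icc (by fun_prop)).mono_set Ioc_subset_Icc_self
  · filter_upwards [ae_restrict_mem measurableSet_Ioc] with r hr
    exact pow_nonneg hr.1.le n

lemma lens_radius {σ : ℝ} (hσ : σ = 1 ∨ σ = -1) {w : ℂ} {δ : ℝ} (hw : ‖w - om σ‖ ≤ δ)
    (hδ1 : δ ≤ 1 / 2) {r θ : ℝ} (hr : 0 < r) (h1 : ‖1 - pol r θ‖ ≤ 1)
    (h2 : ‖1 - pol r θ * w‖ ≤ 1) : r ≤ ml σ θ + 3 * δ := by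
  have hδ : 0 ≤ δ := (norm_nonneg _).trans hw
  have hcs := Real.cos_sq_add_sin_sq θ
  have s3 : √3 * √3 = 3 := Real.mul_self_sqrt (by norm_num)
  have a1 : r ≤ 2 * Real.cos θ := by
    have : ‖1 - pol r θ‖ ^ 2 ≤ 1 ^ 2 := pow_le_pow_left₀ (norm_nonneg _) h1 2
    rw [← Complex.normSq_eq_norm_sq, Complex.normSq_apply] at this
    simp only [Complex.sub_re, Complex.sub_im, pol_re, pol_im, Complex.one_re, Complex.one_im] at this
    have h3 : r * r ≤ r * (2 * Real.cos θ) := by nlinarith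
    exact le_of_mul_le_mul_left h3 hr
  have hr2 : r ≤ 2 := by linarith [Real.cos_le_one θ]
  have a2 : r ≤ 2 * Real.cos (θ + σ * (π / 3)) + 3 * δ := by
    have e : 1 - pol r θ * om σ = (1 - pol r θ * w) + pol r θ * (w - om σ) := by ring
    have h3 : ‖1 - pol r θ * om σ‖ ≤ 1 + r * δ := by
      rw [e]
      refine (norm_add_le _ _).trans (add_le_add h2 ?_)
      rw [norm_mul, norm_pol hr.le]; gcongr
    have h4 : ‖1 - pol r θ * om σ‖ ^ 2 ≤ (1 + r * δ) ^ 2 := pow_le_pow_left₀ (norm_nonneg _) h3 2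
    have h5 : ‖1 - pol r θ * om σ‖ ^ 2 = 1 - 2 * r * Real.cos (θ + σ * (π / 3)) + r ^ 2 := by
      rw [← Complex.normSq_eq_norm_sq, Complex.normSq_apply]
      simp only [Complex.sub_re, Complex.sub_im, Complex.mul_re, Complex.mul_im, pol_re, pol_im,
        Complex.one_re, Complex.one_im, om]
      rcases hσ with rfl | rfl
      · rw [one_mul (π / 3), Real.cos_add, Real.cos_pi_div_three, Real.sin_pi_div_three]
        linear_combination (r ^ 2 * (Real.cos θ ^ 2 + Real.sin θ ^ 2) / 4) * s3 + r ^ 2 * hcs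
      · rw [neg_one_mul (π / 3), Real.cos_add, Real.cos_neg, Real.sin_neg, Real.cos_pi_div_three,
          Real.sin_pi_div_three]
        linear_combination (r ^ 2 * (Real.cos θ ^ 2 + Real.sin θ ^ 2) / 4) * s3 + r ^ 2 * hcs
    rw [h5] at h4
    have h6 : r * δ ≤ 1 := by nlinarith
    have h7 : r * δ * (r * δ) ≤ r * δ * 1 := by gcongr
    have h8 : r * r ≤ r * (2 * Real.cos (θ + σ * (π / 3)) + 3 * δ) := by nlinarith
    exact le_of_mul_le_mul_left h8 hr
  have : 2 * min (Real.cos θ) (Real.cos (θ + σ * (π / 3))) ≤ ml σ θ := le_max_right _ _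
  rcases min_choice (Real.cos θ) (Real.cos (θ + σ * (π / 3))) with h | h <;> rw [h] at this <;>
    linarith

lemma measurableSet_lens {α : Type*} [MeasurableSpace α] {f g : α → ℂ} (hf : Measurable f)
    (hg : Measurable g) : MeasurableSet {p : α | ‖1 - f p‖ ≤ 1 ∧ ‖1 - f p * g p‖ ≤ 1} := by
  have h1 : MeasurableSet {p : α | ‖1 - f p‖ ≤ 1} :=
    measurableSet_le (by fun_prop) measurable_const
  have h2 : MeasurableSet {p : α | ‖1 - f p * g p‖ ≤ 1} :=
    measurableSet_le (by fun_prop) measurable_const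
  exact h1.inter h2

lemma L_upper {σ : ℝ} (hσ : σ = 1 ∨ σ = -1) {w : ℂ} {δ : ℝ} (hw : ‖w - om σ‖ ≤ δ)
    (hδ1 : δ ≤ 1 / 1000) :
    ∫⁻ d : ℂ, ENNReal.ofReal (‖d‖ ^ 2) *
        indicator {d : ℂ | ‖1 - d‖ ≤ 1 ∧ ‖1 - d * w‖ ≤ 1} (1 : ℂ → ℝ≥0∞) d ≤
      ENNReal.ofReal (π - 9 * √3 / 8 + 50 * π * δ) := by
  have hδ : 0 ≤ δ := (norm_nonneg _).trans hw
  have hpi := Real.pi_pos
  have hms : MeasurableSet {d : ℂ | ‖1 - d‖ ≤ 1 ∧ ‖1 - d * w‖ ≤ 1} :=
    measurableSet_lens measurable_id measurable_const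
  have hm : Measurable fun d : ℂ => ENNReal.ofReal (‖d‖ ^ 2) *
      indicator {d : ℂ | ‖1 - d‖ ≤ 1 ∧ ‖1 - d * w‖ ≤ 1} (1 : ℂ → ℝ≥0∞) d :=
    Measurable.mul (by fun_prop) (measurable_one.indicator hms)
  rw [lint_polar _ hm]
  have hc : Continuous fun θ => ml σ θ ^ 4 / 4 + 25 * δ :=
    (((continuous_ml σ).pow 4).div_const 4).add continuous_const
  have e1 : ∫ θ in Ioo (-π) π, (ml σ θ ^ 4 / 4 + 25 * δ) ≤ π - 9 * √3 / 8 + 50 * π * δ := by
    rw [← integral_Ioc_eq_integral_Ioo, ← intervalIntegral.integral_of_le (by linarith),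
      intervalIntegral.integral_add (f := fun θ => ml σ θ ^ 4 / 4) (g := fun _ => 25 * δ)
        ((((continuous_ml σ).pow 4).div_const 4).intervalIntegrable _ _) (by simp)]
    have := integral_ml hσ
    simp only [intervalIntegral.integral_const, smul_eq_mul]
    linarith
  refine le_trans ?_ (ENNReal.ofReal_le_ofReal e1)
  rw [ofReal_integral_eq_lintegral_ofReal
    (hc.integrableOn_Icc.mono_set Ioo_subset_Icc_self)
    (Filter.Eventually.of_forall fun θ => by have := ml_nonneg σ θ; positivity)]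
  refine lintegral_mono fun θ => ?_
  have hm0 := ml_nonneg σ θ
  have hm2 := ml_le σ θ
  have hM : 0 ≤ ml σ θ + 3 * δ := by positivity
  have e2 : (ml σ θ + 3 * δ) ^ (3 + 1) / ((3 : ℕ) + 1) ≤ ml σ θ ^ 4 / 4 + 25 * δ := by
    set m := ml σ θ
    have m2 : m ^ 2 ≤ 2 ^ 2 := pow_le_pow_left₀ hm0 hm2 2
    have m3 : m ^ 3 ≤ 2 ^ 3 := pow_le_pow_left₀ hm0 hm2 3
    have d2 : δ ^ 2 ≤ δ / 1000 := by nlinarith
    have d3 : δ ^ 3 ≤ δ / 1000 := by nlinarith
    have d4 : δ ^ 4 ≤ δ / 1000 := by nlinarith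
    have t1 : m ^ 3 * δ ≤ 2 ^ 3 * δ := by gcongr
    have t2 : m ^ 2 * δ ^ 2 ≤ 2 ^ 2 * (δ / 1000) := by gcongr
    have t3 : m * δ ^ 3 ≤ 2 * (δ / 1000) := by gcongr
    push_cast
    nlinarith
  refine le_trans ?_ (ENNReal.ofReal_le_ofReal e2)
  rw [← lint_pow_Ioc 3 hM, ← lintegral_indicator measurableSet_Ioc,
    ← lintegral_indicator measurableSet_Ioi]
  refine lintegral_mono fun r => ?_
  by_cases hr : r ∈ Ioi (0 : ℝ)
  · rw [indicator_of_mem hr]
    by_cases hd : pol r θ ∈ {d : ℂ | ‖1 - d‖ ≤ 1 ∧ ‖1 - d * w‖ ≤ 1}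
    · have := lens_radius hσ hw (by linarith) hr hd.1 hd.2
      rw [indicator_of_mem hd, indicator_of_mem (show r ∈ Ioc 0 (ml σ θ + 3 * δ) from ⟨hr, this⟩),
        norm_pol (le_of_lt hr), Pi.one_apply, mul_one, ← ENNReal.ofReal_mul (le_of_lt hr)]
      apply le_of_eq; congr 1; ring
    · rw [indicator_of_notMem hd]; simp
  · rw [indicator_of_notMem hr]; simp

lemma lint_norm4 : ∫⁻ x : ℂ, ENNReal.ofReal (‖x‖ ^ 4) *
    indicator {x : ℂ | ‖x‖ ≤ 1} (1 : ℂ → ℝ≥0∞) x ≤ ENNReal.ofReal (π / 3) := by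
  have hpi := Real.pi_pos
  have hms : MeasurableSet {x : ℂ | ‖x‖ ≤ 1} := measurableSet_le (by fun_prop) measurable_const
  have hm : Measurable fun x : ℂ => ENNReal.ofReal (‖x‖ ^ 4) *
      indicator {x : ℂ | ‖x‖ ≤ 1} (1 : ℂ → ℝ≥0∞) x :=
    Measurable.mul (by fun_prop) (measurable_one.indicator hms)
  rw [lint_polar _ hm]
  have e : ENNReal.ofReal (π / 3) = ∫⁻ _ in Ioo (-π) π, ENNReal.ofReal (1 ^ (5 + 1) / ((5 : ℕ) + 1)) := by
    rw [setLIntegral_const, Real.volume_Ioo, ← ENNReal.ofReal_mul (by positivity)]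
    congr 1; push_cast; ring
  rw [e]
  refine lintegral_mono fun θ => ?_
  rw [← lint_pow_Ioc 5 zero_le_one, ← lintegral_indicator measurableSet_Ioc,
    ← lintegral_indicator measurableSet_Ioi]
  refine lintegral_mono fun r => ?_
  by_cases hr : r ∈ Ioi (0 : ℝ)
  · rw [indicator_of_mem hr]
    by_cases hd : pol r θ ∈ {x : ℂ | ‖x‖ ≤ 1}
    · have h1 : r ≤ 1 := by
        have : ‖pol r θ‖ ≤ 1 := hd
        rwa [norm_pol (le_of_lt hr)] at this
      rw [indicator_of_mem hd, indicator_of_mem (show r ∈ Ioc 0 1 from ⟨hr, h1⟩),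
        norm_pol (le_of_lt hr), Pi.one_apply, mul_one, ← ENNReal.ofReal_mul (le_of_lt hr)]
      apply le_of_eq; congr 1; ring
    · rw [indicator_of_notMem hd]; simp
  · rw [indicator_of_notMem hr]; simp

end Pool.Agent.Lib.MP_92974c_pr
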