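import Pool.Agent.Lib.MP_92974c_pr.Main

/-! Second variation at the disc, part A: the trilinear form and its kernel. -/

open MeasureTheory Set EuclideanGeometry Metric Filter Topology
open scoped ENNReal Real

namespace Pool.Agent.Lib.MP_92974c_pr.Loc

/-- real indicator function -/
noncomputable def I (S : Set ℂ) : ℂ → ℝ := S.indicator 1

/-- indicator of the good triples -/
noncomputable def aa (φ : ℝ) : ℂ × ℂ × ℂ → ℝ := {p : ℂ × ℂ × ℂ | Tri φ p.1 p.2.1 p.2.2}.indicator 1

/-- the trilinear form -/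
noncomputable def Lm (φ : ℝ) (f g h : ℂ → ℝ) : ℝ :=
  ∫ p : ℂ × ℂ × ℂ, f p.1 * (g p.2.1 * h p.2.2) * aa φ p ∂volume.prod (volume.prod volume)

variable {φ : ℝ} {f g h u d : ℂ → ℝ} {S : Set ℂ}

lemma abs_ind {α : Type} (s : Set α) (a : α) : |s.indicator (1 : α → ℝ) a| ≤ 1 := by
  by_cases h : a ∈ s <;> simp [h]

lemma meas_aa : Measurable (aa φ) :=
  measurable_one.indicator (measurableSet_tri φ (by fun_prop) (by fun_prop) (by fun_prop))

lemma int3 (hf : Integrable f) (hg : Integrable g) (hh : Integrable h) :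
    Integrable (fun p : ℂ × ℂ × ℂ => f p.1 * (g p.2.1 * h p.2.2) * aa φ p)
      (volume.prod (volume.prod volume)) :=
  (hf.mul_prod (hg.mul_prod hh)).mul_bdd meas_aa.aestronglyMeasurable
    (Eventually.of_forall fun p => abs_ind _ p)

lemma Lm_rot : Lm φ f g h = Lm φ g h f := by
  have e : MeasurePreserving ((MeasurableEquiv.prodComm).trans MeasurableEquiv.prodAssoc :
      ℂ × ℂ × ℂ ≃ᵐ ℂ × ℂ × ℂ) (volume.prod (volume.prod volume))
      (volume.prod (volume.prod volume)) :=
    (measurePreserving_prodAssoc _ _ _).comp Measure.measurePreserving_swap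
  rw [Lm, Lm, ← e.integral_comp' fun p => g p.1 * (h p.2.1 * f p.2.2) * aa φ p]
  refine integral_congr_ae (Eventually.of_forall fun p => ?_)
  change f p.1 * (g p.2.1 * h p.2.2) * aa φ p =
    g p.2.1 * (h p.2.2 * f p.1) * aa φ (p.2.1, p.2.2, p.1)
  have : aa φ (p.2.1, p.2.2, p.1) = aa φ p := by
    have r : Tri φ p.1 p.2.1 p.2.2 ↔ Tri φ p.2.1 p.2.2 p.1 := Tri.rot
    by_cases t : Tri φ p.1 p.2.1 p.2.2
    · simp [aa, t, r.1 t]
    · simp [aa, t, mt r.2 t]
  rw [this]; ring

lemma Lm_add (hf : Integrable f) (hu : Integrable u) (hg : Integrable g) (hh : Integrable h) :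
    Lm φ (f + u) g h = Lm φ f g h + Lm φ u g h := by
  rw [Lm, Lm, Lm, ← integral_add (int3 hf hg hh) (int3 hu hg hh)]
  exact integral_congr_ae (Eventually.of_forall fun p => by simp only [Pi.add_apply]; ring)

lemma Lm_cube (hd : Integrable d) (hu : Integrable u) : Lm φ (d + u) (d + u) (d + u) =
    Lm φ d d d + 3 * Lm φ u d d + 3 * Lm φ u u d + Lm φ u u u := by
  have hs := hd.add hu
  have a : ∀ f g, Integrable f → Integrable g → Lm φ f g (d + u) = Lm φ d f g + Lm φ u f g :=
    fun f g hf hg => by rw [Lm_rot, Lm_rot, Lm_add hd hu hf hg]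
  rw [a _ _ hs hs, a _ _ hd hs, a _ _ hu hs, a _ _ hd hd, a _ _ hu hd, a _ _ hd hu, a _ _ hu hu,
    Lm_rot (f := d) (g := u) (h := d), Lm_rot (f := d) (g := d) (h := u),
    Lm_rot (f := d) (g := u) (h := d), Lm_rot (f := d) (g := u) (h := u),
    Lm_rot (f := u) (g := d) (h := u), Lm_rot (f := d) (g := u) (h := u)]
  ring

lemma Lm_abs (hu : Integrable u) : |Lm φ u u u| ≤ (∫ z, |u z|) ^ 3 := by
  have e : (∫ z, |u z|) ^ 3 = ∫ p : ℂ × ℂ × ℂ, |u p.1| * (|u p.2.1| * |u p.2.2|)
      ∂volume.prod (volume.prod volume) := by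
    rw [integral_prod_mul (fun z => |u z|) fun q : ℂ × ℂ => |u q.1| * |u q.2|,
      integral_prod_mul (fun z => |u z|) fun z => |u z|]
    ring
  rw [e, Lm, ← Real.norm_eq_abs]
  refine norm_integral_le_of_norm_le (hu.abs.mul_prod (hu.abs.mul_prod hu.abs))
    (Eventually.of_forall fun p => ?_)
  rw [Real.norm_eq_abs, abs_mul, abs_mul, abs_mul]
  exact mul_le_of_le_one_right (by positivity) (abs_ind _ p)

lemma Lm_iter (hf : Integrable f) (hg : Integrable g) (hh : Integrable h) :
    Lm φ f g h = ∫ x, f x * ∫ y, g y * ∫ z, h z * aa φ (x, y, z) := by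
  rw [Lm, integral_prod _ (int3 hf hg hh)]
  refine integral_congr_ae (Eventually.of_forall fun x => ?_)
  have : Integrable (fun q : ℂ × ℂ => g q.1 * h q.2 * aa φ (x, q)) (volume.prod volume) :=
    (hg.mul_prod hh).mul_bdd (meas_aa.comp measurable_prodMk_left).aestronglyMeasurable
      (Eventually.of_forall fun p => abs_ind _ _)
  simp only [mul_assoc (f x)]
  rw [integral_const_mul, integral_prod _ this]
  simp only [mul_assoc, integral_const_mul]

lemma Lm_V (hS : MeasurableSet S) : Lm φ (I S) (I S) (I S) = (V S φ).toReal := by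
  rw [V, ← measureReal_def, ← integral_indicator_one
    (measurableSet_V hS φ (by fun_prop) (by fun_prop) (by fun_prop))]
  refine integral_congr_ae (Eventually.of_forall fun p => ?_)
  by_cases h1 : p.1 ∈ S <;> by_cases h2 : p.2.1 ∈ S <;> by_cases h3 : p.2.2 ∈ S <;>
    by_cases h4 : Tri φ p.1 p.2.1 p.2.2 <;> simp [I, aa, h1, h2, h3, h4]

lemma int_I (hS : MeasurableSet S) (hb : S ⊆ closedBall 0 2) : Integrable (I S) :=
  (integrable_indicator_iff hS).2
    (integrableOn_const ((measure_mono hb).trans_lt measure_closedBall_lt_top).ne)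

lemma int_aff (f : ℂ → ℝ) (a b : ℂ) (ha : a ≠ 0) : ∫ z, f z = ‖a‖ ^ 2 * ∫ w, f (b + a * w) := by
  let L : ℂ →ₗ[ℝ] ℂ := Algebra.lmul ℝ ℂ a
  have hdet : LinearMap.det L = ‖a‖ ^ 2 := by
    rw [← Complex.normSq_eq_norm_sq, ← Algebra.norm_complex_apply, Algebra.norm_apply]
  have hpos : 0 < ‖a‖ ^ 2 := by positivity
  have hm := Measure.map_linearMap_addHaar_eq_smul_addHaar (volume : Measure ℂ) (f := L)
    (by rw [hdet]; exact hpos.ne')
  have h1 : ∫ w, f (b + a * w) = ∫ z, f (b + z) ∂(Measure.map L volume) :=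
    ((Homeomorph.mulLeft₀ a ha).measurableEmbedding.integral_map fun z => f (b + z)).symm
  rw [h1, hm, integral_smul_measure, hdet, abs_of_pos (inv_pos.mpr hpos),
    ENNReal.toReal_ofReal (inv_pos.mpr hpos).le, smul_eq_mul, mul_inv_cancel_left₀ hpos.ne',
    integral_add_left_eq_self]

/-- the shapes -/
def W (φ : ℝ) : Set ℂ := {w | Tri φ 0 1 w}

/-- the unit disc -/
abbrev D : Set ℂ := ball 0 1

/-- the kernel of the second variation -/
noncomputable def K (φ : ℝ) (x y : ℂ) : ℝ := ‖y - x‖ ^ 2 * ∫ w in W φ, I D (x + (y - x) * w)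

lemma K_eq (hφ : φ < π / 2) (x y : ℂ) : ∫ z, I D z * aa φ (x, y, z) = K φ x y := by
  by_cases hxy : y = x
  · subst hxy
    have : ∀ z, ¬Tri φ y y z := fun z h => by
      have := h.1
      rw [angle_self_left] at this
      linarith
    simp [K, aa, this]
  · have h0 := sub_ne_zero.2 hxy
    rw [int_aff _ (y - x) x h0, K, W, ← integral_indicator (measurableSet_W φ)]
    congr 2
    funext w
    have := tri_affine' φ (y - x) x h0 w
    rw [add_sub_cancel] at this
    by_cases hw : Tri φ 0 1 w <;> simp [aa, this, hw]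

lemma abs_N (hW : volume (W φ) < ⊤) (x y : ℂ) :
    |∫ w in W φ, I D (x + (y - x) * w)| ≤ volume.real (W φ) := by
  simpa using norm_setIntegral_le_of_norm_le_const hW
    (f := fun w => I D (x + (y - x) * w)) (C := 1) fun w _ => abs_ind _ _

lemma cont_K (hW : volume (W φ) < ⊤) : Continuous fun p : ℂ × ℂ => K φ p.1 p.2 := by
  refine continuous_iff_continuousAt.2 fun q => ?_
  by_cases hq : q.2 = q.1
  · have h0 : K φ q.1 q.2 = 0 := by simp [K, hq]
    rw [ContinuousAt, h0]
    have c : Continuous fun p : ℂ × ℂ => ‖p.2 - p.1‖ ^ 2 * volume.real (W φ) := by fun_prop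
    refine squeeze_zero_norm (fun p => ?_) (by simpa [hq] using c.tendsto q)
    rw [K, Real.norm_eq_abs, abs_mul, abs_of_nonneg (sq_nonneg _)]
    exact mul_le_mul_of_nonneg_left (abs_N hW _ _) (sq_nonneg _)
  · have h0 := sub_ne_zero.2 hq
    refine ContinuousAt.mul (by fun_prop) ?_
    refine continuousAt_of_dominated (bound := fun _ => 1) (Eventually.of_forall fun p => ?_)
      (Eventually.of_forall fun p => Eventually.of_forall fun w => abs_ind _ _)
      (integrableOn_const hW.ne) (ae_restrict_of_ae ?_)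
    · exact ((measurable_one.indicator measurableSet_ball).comp (by fun_prop)).aestronglyMeasurable
    · have hn : volume {w : ℂ | q.1 + (q.2 - q.1) * w ∈ sphere (0 : ℂ) 1} = 0 := by
        have : {w : ℂ | q.1 + (q.2 - q.1) * w ∈ sphere (0 : ℂ) 1} =
            sphere (-q.1 / (q.2 - q.1)) ‖q.2 - q.1‖⁻¹ := by
          ext w
          have e : q.1 + (q.2 - q.1) * w = (q.2 - q.1) * (w - -q.1 / (q.2 - q.1)) := by
            field_simp; ring
          simp only [mem_ofPred_eq, mem_sphere_iff_norm, sub_zero, e, norm_mul]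
          rw [mul_comm]
          exact mul_eq_one_iff_eq_inv₀ (norm_ne_zero_iff.2 h0)
        rw [this, Measure.addHaar_sphere]
      filter_upwards [compl_mem_ae_iff.2 hn] with w hw
      refine ContinuousAt.comp (g := I D) (f := fun p : ℂ × ℂ => p.1 + (p.2 - p.1) * w) ?_
        (by fun_prop)
      exact continuousOn_const.continuousAt_indicator
        (by rwa [frontier_ball _ one_ne_zero])

lemma K_rot {c : ℂ} (hc : ‖c‖ = 1) (x y : ℂ) : K φ (c * x) (c * y) = K φ x y := by
  have : ∀ w, I D (c * x + c * (y - x) * w) = I D (x + (y - x) * w) := fun w => by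
    simp only [I, indicator, mul_assoc, ← mul_add, mem_ball_zero_iff, norm_mul, hc, one_mul,
      Pi.one_apply]
  simp only [K, ← mul_sub, norm_mul, hc, one_mul, this]

lemma cont_int (hW : volume (W φ) < ⊤) (hS : MeasurableSet S) (hb : S ⊆ closedBall 0 2) :
    Continuous fun x => ∫ y, I S y * K φ x y := by
  have := continuous_parametric_integral_of_continuous (μ := volume.restrict S)
    (f := K φ) (cont_K hW) (isCompact_closedBall (0 : ℂ) 2)
  rw [Measure.restrict_restrict measurableSet_closedBall, inter_eq_right.2 hb] at this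
  refine this.congr fun x => ?_
  rw [← integral_indicator hS]
  congr 1
  funext y
  by_cases h : y ∈ S <;> simp [I, h]

/-- the kernel of the first variation -/
noncomputable def G (φ : ℝ) (x : ℂ) : ℝ := ∫ y, I D y * K φ x y

lemma D_sub : D ⊆ closedBall 0 2 := ball_subset_closedBall.trans (closedBall_subset_closedBall one_le_two)

lemma G_rot {c : ℂ} (hc : ‖c‖ = 1) (x : ℂ) : G φ (c * x) = G φ x := by
  rw [G, int_aff _ c 0 (by rintro rfl; simp at hc), hc, one_pow, one_mul, G]
  congr 1
  funext y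
  simp only [zero_add, K_rot hc, I, indicator, mem_ball_zero_iff, norm_mul, hc, one_mul,
    Pi.one_apply]

/-- the exact expansion -/
lemma expand (hφ : φ < π / 2) (hS : MeasurableSet S) (hb : S ⊆ closedBall 0 2) :
    |(V S φ).toReal - (V D φ).toReal - 3 * (∫ x, (I S x - I D x) * G φ x) -
      3 * ∫ x, (I S x - I D x) * ∫ y, (I S y - I D y) * K φ x y| ≤ (∫ z, |I S z - I D z|) ^ 3 := by
  have hd := int_I measurableSet_ball D_sub
  have hu := (int_I hS hb).sub hd
  have := Lm_cube (φ := φ) hd hu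
  rw [add_sub_cancel, Lm_V hS, Lm_V measurableSet_ball, Lm_iter hu hd hd, Lm_iter hu hu hd] at this
  simp only [K_eq hφ, Pi.sub_apply] at this
  rw [this]
  refine le_of_eq_of_le ?_ (Lm_abs (φ := φ) hu)
  congr 1
  simp only [G]
  change _ = Lm φ (I S - I D) (I S - I D) (I S - I D)
  ring

lemma V_shift (hS : MeasurableSet S) (c : ℂ) : V ((c + ·) ⁻¹' S) φ = V S φ := by
  have hp : MeasurePreserving (fun z : ℂ => c + z) := measurePreserving_add_left _ c
  rw [V, V, ← (hp.prod (hp.prod hp)).measure_preimage (measurableSet_V hS φ (by fun_prop)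
    (by fun_prop) (by fun_prop)).nullMeasurableSet]
  congr 1
  ext p
  have := tri_affine φ 1 c one_ne_zero p.1 p.2.1 p.2.2
  simp only [one_mul] at this
  simp [this]

end Pool.Agent.Lib.MP_92974c_pr.Loc
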