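import Pool.Agent.Lib.MP_92974c_pr.LocA

/-! Second variation at the disc, part B: star-shaped sets. -/

open MeasureTheory Set EuclideanGeometry Metric Filter Topology
open scoped ENNReal Real

namespace Pool.Agent.Lib.MP_92974c_pr.Loc

/-- `S` is star-shaped with radial function `ρ` -/
structure Rad (S : Set ℂ) (ρ : ℝ → ℝ) : Prop where
  meas : MeasurableSet S
  cont : Continuous ρ
  zero : 0 ∈ S
  mem : ∀ r, 0 < r → ∀ θ, pol r θ ∈ S ↔ r < ρ θ

variable {φ : ℝ} {f : ℂ → ℝ} {S : Set ℂ} {ρ h : ℝ → ℝ} {η : ℝ}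

lemma cont_pol : Continuous fun p : ℝ × ℝ => pol p.1 p.2 := by unfold pol; fun_prop

lemma pol_arg (z : ℂ) : pol ‖z‖ z.arg = z := by
  rw [pol, Complex.ofReal_cos, Complex.ofReal_sin, Complex.norm_mul_cos_add_sin_mul_I]

lemma rad_D : Rad D fun _ => 1 :=
  ⟨measurableSet_ball, continuous_const, mem_ball_self one_pos, fun r hr θ => by
    rw [mem_ball_zero_iff, norm_pol hr.le]⟩

lemma Rad.sub (hS : Rad S ρ) {b : ℝ} (h0 : 0 < b) (hb : ∀ θ, ρ θ ≤ b) : S ⊆ ball 0 b :=
  fun z hz => by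
    rcases eq_or_ne z 0 with rfl | h
    · exact mem_ball_self h0
    · rw [← pol_arg z, hS.mem _ (norm_pos_iff.2 h)] at hz
      exact mem_ball_zero_iff.2 (hz.trans_le (hb _))

lemma Rad.sup (hS : Rad S ρ) {b : ℝ} (hb : ∀ θ, b ≤ ρ θ) : ball 0 b ⊆ S := fun z hz => by
  rcases eq_or_ne z 0 with rfl | h
  · exact hS.zero
  · rw [← pol_arg z, hS.mem _ (norm_pos_iff.2 h)]
    exact (mem_ball_zero_iff.1 hz).trans_le (hb _)

lemma Rad.sub2 (hS : Rad S ρ) (hb : ∀ θ, ρ θ ≤ 2) : S ⊆ closedBall 0 2 :=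
  (hS.sub two_pos hb).trans ball_subset_closedBall

lemma int_If (hS : MeasurableSet S) (hb : S ⊆ closedBall 0 2) (hf : Continuous f) :
    Integrable fun z => I S z * f z := by
  refine ((integrable_indicator_iff hS).2 ((hf.continuousOn.integrableOn_compact
    (isCompact_closedBall 0 2)).mono_set hb)).congr (Eventually.of_forall fun z => ?_)
  by_cases h : z ∈ S <;> simp [I, h]

lemma Rad.polar (hS : Rad S ρ) (h0 : ∀ θ, 0 ≤ ρ θ) (h2 : ∀ θ, ρ θ ≤ 2) (hf : Continuous f) :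
    ∫ z, I S z * f z = ∫ θ in (-π)..π, ∫ r in (0 : ℝ)..ρ θ, r * f (pol r θ) := by
  have hg : Continuous fun p : ℝ × ℝ => p.1 * f (pol p.1 p.2) :=
    continuous_fst.mul (hf.comp cont_pol)
  have hT : MeasurableSet {p : ℝ × ℝ | p.1 < ρ p.2} :=
    (isOpen_lt continuous_fst (hS.cont.comp continuous_snd)).measurableSet
  have ht : polarCoord.target = Ioi (0 : ℝ) ×ˢ Ioo (-π) π := rfl
  have hm : MeasurableSet (Ioi (0 : ℝ) ×ˢ Ioo (-π) π) := measurableSet_Ioi.prod measurableSet_Ioo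
  rw [← Complex.integral_comp_polarCoord_symm, ht, setIntegral_congr_fun hm
    (g := {p : ℝ × ℝ | p.1 < ρ p.2}.indicator fun p => p.1 * f (pol p.1 p.2)) ?_,
    Measure.volume_eq_prod, ← Measure.prod_restrict, integral_prod_symm,
    intervalIntegral.integral_of_le (by linarith [Real.pi_pos]), integral_Ioc_eq_integral_Ioo]
  · refine integral_congr_ae (Eventually.of_forall fun θ => ?_)
    change ∫ r in Ioi 0, (Iio (ρ θ)).indicator (fun r => r * f (pol r θ)) r =
      ∫ r in (0 : ℝ)..ρ θ, r * f (pol r θ)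
    rw [setIntegral_indicator measurableSet_Iio, Ioi_inter_Iio,
      intervalIntegral.integral_of_le (h0 θ), integral_Ioc_eq_integral_Ioo]
  · rw [Measure.prod_restrict, integrable_indicator_iff hT, IntegrableOn,
      Measure.restrict_restrict hT]
    refine (hg.continuousOn.integrableOn_compact ((isCompact_Icc (a := 0) (b := 2)).prod
      (isCompact_Icc (a := -π) (b := π)))).mono_set fun p hp => ?_
    exact ⟨⟨le_of_lt hp.2.1, (le_of_lt hp.1).trans (h2 _)⟩, Ioo_subset_Icc_self hp.2.2⟩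
  · intro p hp
    have e : Complex.polarCoord.symm p = pol p.1 p.2 := Complex.polarCoord_symm_apply p
    have := hS.mem _ hp.1 p.2
    by_cases h : p.1 < ρ p.2 <;> simp [I, e, this, h]

lemma cont_par (hf : Continuous f) (hρ : Continuous ρ) (a : ℝ) :
    Continuous fun θ => ∫ r in a..ρ θ, r * f (pol r θ) :=
  intervalIntegral.continuous_parametric_intervalIntegral_of_continuous
    (f := fun θ r => r * f (pol r θ))
    (continuous_snd.mul (hf.comp (cont_pol.comp continuous_swap))) hρ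

lemma cont_ray (hf : Continuous f) (θ : ℝ) : Continuous fun r : ℝ => r * f (pol r θ) :=
  continuous_id.mul (hf.comp (cont_pol.comp (Continuous.prodMk_left θ)))

lemma Rad.diff (hS : Rad S ρ) (h0 : ∀ θ, 0 ≤ ρ θ) (h2 : ∀ θ, ρ θ ≤ 2) (hf : Continuous f) :
    ∫ z, (I S z - I D z) * f z = ∫ θ in (-π)..π, ∫ r in (1 : ℝ)..ρ θ, r * f (pol r θ) := by
  simp only [sub_mul]
  rw [integral_sub (int_If hS.meas (hS.sub2 h2) hf) (int_If measurableSet_ball D_sub hf),
    hS.polar h0 h2 hf, rad_D.polar (fun _ => zero_le_one) (fun _ => one_le_two) hf,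
    ← intervalIntegral.integral_sub ((cont_par hf hS.cont 0).intervalIntegrable _ _)
      ((cont_par hf continuous_const 0).intervalIntegrable _ _)]
  congr 1
  funext θ
  exact intervalIntegral.integral_interval_sub_left ((cont_ray hf θ).intervalIntegrable _ _)
    ((cont_ray hf θ).intervalIntegrable _ _)

lemma Rad.area (hS : Rad S ρ) (h0 : ∀ θ, 0 ≤ ρ θ) (h2 : ∀ θ, ρ θ ≤ 2) :
    volume.real S = ∫ θ in (-π)..π, ρ θ ^ 2 / 2 := by
  have := hS.polar h0 h2 (f := fun _ => 1) continuous_const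
  simp only [mul_one, integral_id, I] at this
  rw [← integral_indicator_one hS.meas, this]
  simp

lemma abs_int {g : ℝ → ℝ} {c : ℝ} (h : ∀ θ, |g θ| ≤ c) : |∫ θ in (-π)..π, g θ| ≤ 2 * π * c := by
  have := intervalIntegral.norm_integral_le_of_norm_le_const (a := -π) (b := π) (f := g) (C := c)
    fun θ _ => h θ
  rwa [sub_neg_eq_add, abs_of_pos (by positivity), ← two_mul, mul_comm c] at this

lemma ray_est {g : ℝ → ℝ} (hg : Continuous g) {a b c ε : ℝ} (h1 : η ≤ 1) (ha : |a - 1| ≤ η)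
    (hb : |b - 1| ≤ η) (hε : ∀ r, |r - 1| ≤ η → |g r - c| ≤ ε) :
    |(∫ r in a..b, r * g r) - (b ^ 2 - a ^ 2) / 2 * c| ≤ 2 * ε * |b - a| := by
  have e : (∫ r in a..b, r * g r) - (b ^ 2 - a ^ 2) / 2 * c = ∫ r in a..b, r * (g r - c) := by
    simp only [mul_sub]
    rw [intervalIntegral.integral_sub (Continuous.intervalIntegrable (by fun_prop) _ _)
      (Continuous.intervalIntegrable (by fun_prop) _ _),
      intervalIntegral.integral_mul_const, integral_id]
  rw [e, ← Real.norm_eq_abs]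
  refine intervalIntegral.norm_integral_le_of_norm_le_const fun r hr => ?_
  have hr' : |r - 1| ≤ η := by
    rw [abs_le] at ha hb ⊢
    have h2 := hr.1
    have h3 := hr.2
    constructor
    · have : 1 - η ≤ min a b := le_min (by linarith) (by linarith)
      linarith
    · have : max a b ≤ 1 + η := max_le (by linarith) (by linarith)
      linarith
  rw [Real.norm_eq_abs, abs_mul]
  refine mul_le_mul ?_ (hε r hr') (abs_nonneg _) zero_le_two
  rw [abs_le] at hr' ⊢
  constructor <;> linarith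

lemma Rad.est (hS : Rad S ρ) (h1 : η ≤ 1) (hρ : ∀ θ, |ρ θ - 1| ≤ η) (hf : Continuous f)
    {g : ℝ → ℝ} (hg : Continuous g) (hh : Continuous h) {ε μ M t : ℝ}
    (hε : ∀ θ r, |r - 1| ≤ η → |f (pol r θ) - g θ| ≤ ε) (hM : ∀ θ, |g θ| ≤ M)
    (hμ : ∀ θ, |(ρ θ ^ 2 - 1) / 2 - t * h θ| ≤ μ) :
    |(∫ z, (I S z - I D z) * f z) - t * ∫ θ in (-π)..π, h θ * g θ| ≤
      2 * π * (2 * ε * η + μ * M) := by
  have h0 : 0 ≤ η := (abs_nonneg _).trans (hρ 0)
  have hε0 : 0 ≤ ε := (abs_nonneg _).trans (hε 0 1 (by simpa using h0))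
  rw [hS.diff (fun θ => by linarith [abs_le.1 (hρ θ)]) (fun θ => by linarith [abs_le.1 (hρ θ)]) hf,
    ← intervalIntegral.integral_const_mul, ← intervalIntegral.integral_sub
      ((cont_par hf hS.cont 1).intervalIntegrable _ _) (Continuous.intervalIntegrable
        (by fun_prop) _ _)]
  refine abs_int fun θ => ?_
  have a := ray_est (g := fun r => f (pol r θ)) (hf.comp (cont_pol.comp (Continuous.prodMk_left θ)))
    h1 (a := 1) (by simpa using h0) (hρ θ) (hε θ)
  have b : |((ρ θ ^ 2 - 1) / 2 - t * h θ) * g θ| ≤ μ * M := by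
    rw [abs_mul]
    exact mul_le_mul (hμ θ) (hM θ) (abs_nonneg _) ((abs_nonneg _).trans (hμ θ))
  have c := mul_le_mul_of_nonneg_left (hρ θ) (mul_nonneg zero_le_two hε0)
  refine le_trans (le_of_eq ?_) ((abs_add_le _ _).trans (add_le_add (a.trans c) b))
  congr 1
  ring

lemma Rad.shell (hS : Rad S ρ) (h1 : η ≤ 1) (hρ : ∀ θ, |ρ θ - 1| ≤ η) :
    ∫ z, |I S z - I D z| ≤ 4 * π * η := by
  have h0 : 0 ≤ η := (abs_nonneg _).trans (hρ 0)
  have s1 := hS.sub (b := 1 + η) (by linarith) fun θ => by linarith [abs_le.1 (hρ θ)]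
  have s2 := hS.sup (b := 1 - η) fun θ => by linarith [abs_le.1 (hρ θ)]
  have i : ∀ r, r ≤ 2 → Integrable (I (ball 0 r)) := fun r hr => int_I measurableSet_ball
    (ball_subset_closedBall.trans (closedBall_subset_closedBall hr))
  have v : ∀ r, 0 ≤ r → ∫ z, I (ball 0 r) z = π * r ^ 2 := fun r hr => by
    rw [I, integral_indicator_one measurableSet_ball, measureReal_def, Complex.volume_ball]
    simp [hr, mul_comm]
  calc _ ≤ ∫ z, (I (ball 0 (1 + η)) z - I (ball 0 (1 - η)) z) := by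
        refine integral_mono_of_nonneg (Eventually.of_forall fun z => abs_nonneg _)
          ((i _ (by linarith)).sub (i _ (by linarith))) (Eventually.of_forall fun z => ?_)
        have a1 := @s1 z
        have a2 := @s2 z
        have a3 := @ball_subset_ball _ _ (0 : ℂ) 1 (1 + η) (by linarith) z
        have a4 := @ball_subset_ball _ _ (0 : ℂ) (1 - η) 1 (by linarith) z
        simp only [I, indicator, Pi.one_apply]
        split_ifs <;> first | (norm_num; done) | (exfalso; tauto)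
    _ = _ := by
        rw [integral_sub (i _ (by linarith)) (i _ (by linarith)), v _ (by linarith),
          v _ (by linarith)]
        ring

/-- primitive of the first variation -/
noncomputable def Gm (φ a : ℝ) : ℝ := ∫ r in (1 : ℝ)..a, r * G φ r

/-- the quadratic form of the second variation -/
noncomputable def B (φ : ℝ) (h : ℝ → ℝ) : ℝ :=
  ∫ θ in (-π)..π, h θ * ∫ θ' in (-π)..π, h θ' * K φ (pol 1 θ) (pol 1 θ')

lemma pol_eq (r θ : ℝ) : pol r θ = pol 1 θ * r := by simp [pol, mul_comm]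

lemma dist_pol (r θ : ℝ) : dist (pol r θ) (pol 1 θ) = |r - 1| := by
  have : pol r θ - pol 1 θ = pol 1 θ * ((r - 1 : ℝ) : ℂ) := by
    rw [pol_eq r]; push_cast; ring
  rw [dist_eq_norm, this, norm_mul, norm_pol zero_le_one, one_mul, Complex.norm_real,
    Real.norm_eq_abs]

lemma cont_G (hW : volume (W φ) < ⊤) : Continuous (G φ) := cont_int hW measurableSet_ball D_sub

lemma sv (hφ : φ < π / 2) (hW : volume (W φ) < ⊤) {C ε : ℝ} (hC : 0 ≤ C) (hh : Continuous h)
    (h1 : ∀ θ, |h θ| ≤ 1) (hε : 0 < ε) : ∀ᶠ t in 𝓝[>] (0 : ℝ), ∀ S ρ, Rad S ρ →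
      (∀ θ, |ρ θ - 1 - t * h θ| ≤ C * t ^ 2) →
      |(V S φ).toReal - (V D φ).toReal - 3 * (∫ θ in (-π)..π, Gm φ (ρ θ)) - 3 * t ^ 2 * B φ h| ≤
        ε * t ^ 2 := by
  have hK := cont_K hW
  have hc := (isCompact_closedBall (0 : ℂ) 2).prod (isCompact_closedBall (0 : ℂ) 2)
  obtain ⟨M, hM⟩ := hc.exists_bound_of_continuousOn hK.continuousOn
  have hpi := Real.pi_pos
  obtain ⟨δ, δ0, hδ⟩ := Metric.uniformContinuousOn_iff_le.1
    (hc.uniformContinuousOn_of_continuous hK.continuousOn) (ε / (400 * π ^ 2)) (by positivity)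
  have hb : ∀ r θ, |r - 1| ≤ 1 → pol r θ ∈ closedBall (0 : ℂ) 2 := fun r θ hr => by
    rw [mem_closedBall_zero_iff, norm_pol (by linarith [abs_le.1 hr])]
    linarith [abs_le.1 hr]
  have hb1 : ∀ θ, pol 1 θ ∈ closedBall (0 : ℂ) 2 := fun θ => hb 1 θ (by simp)
  have hM' : ∀ θ θ', |K φ (pol 1 θ) (pol 1 θ')| ≤ M := fun θ θ' => hM (_, _) ⟨hb1 θ, hb1 θ'⟩
  have ev : ∀ a b : ℝ, 0 < b → ∀ᶠ t in 𝓝[>] (0 : ℝ), a * t ≤ b := fun a b hb =>
    ((continuous_const_mul a).continuousAt.eventually_le_const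
      (by simpa using hb)).filter_mono nhdsWithin_le_nhds
  filter_upwards [self_mem_nhdsWithin, ev C 1 one_pos, ev 2 1 one_pos, ev 2 δ δ0,
    ev (60 * π ^ 2 * (C + 2) * M + (8 * π) ^ 3) (ε / 2) (by positivity)]
    with t t0 t1 t2 t3 t4 S ρ hS hρ
  have t0 : 0 < t := t0
  have hη : ∀ θ, |ρ θ - 1| ≤ 2 * t := fun θ => by
    have a := abs_le.1 (hρ θ)
    have b := abs_le.1 (h1 θ)
    rw [abs_le]; constructor <;> nlinarith
  have hμ : ∀ θ, |(ρ θ ^ 2 - 1) / 2 - t * h θ| ≤ (C + 2) * t ^ 2 := fun θ => by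
    have a := abs_le.1 (hρ θ)
    have b := sq_le_sq' (abs_le.1 (hη θ)).1 (abs_le.1 (hη θ)).2
    rw [abs_le]; constructor <;> nlinarith [sq_nonneg (ρ θ - 1)]
  have r0 : ∀ θ, 0 ≤ ρ θ := fun θ => by linarith [abs_le.1 (hη θ)]
  have r2 : ∀ θ, ρ θ ≤ 2 := fun θ => by linarith [abs_le.1 (hη θ)]
  have hs := hS.sub2 r2
  have kc : ∀ x, Continuous (K φ x) := fun x => hK.comp (Continuous.prodMk_right x)
  have pc : Continuous (pol 1) := cont_pol.comp (Continuous.prodMk_right 1)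
  have cH : Continuous fun x => ∫ y, (I S y - I D y) * K φ x y := by
    refine ((cont_int hW hS.meas hs).sub (cont_G hW)).congr fun x => ?_
    simp only [sub_mul]
    exact (integral_sub (int_If hS.meas hs (kc x)) (int_If measurableSet_ball D_sub (kc x))).symm
  have cB : Continuous fun θ => t * ∫ θ' in (-π)..π, h θ' * K φ (pol 1 θ) (pol 1 θ') :=
    continuous_const.mul (intervalIntegral.continuous_parametric_intervalIntegral_of_continuous
      (f := fun θ θ' => h θ' * K φ (pol 1 θ) (pol 1 θ')) ((hh.comp continuous_snd).mul (hK.comp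
        ((pc.comp continuous_fst).prodMk (pc.comp continuous_snd)))) continuous_const)
  have e2 := hS.est t2 hη cH cB hh (M := t * (2 * π * M)) (fun θ r hr => hS.est t2 hη (kc _)
    ((kc (pol 1 θ)).comp pc) hh (fun θ' r' hr' => hδ (pol r θ, pol r' θ') ⟨hb r θ (hr.trans t2),
      hb r' θ' (hr'.trans t2)⟩ (pol 1 θ, pol 1 θ') ⟨hb1 θ, hb1 θ'⟩
        (max_le ((dist_pol r θ).trans_le (hr.trans t3)) ((dist_pol r' θ').trans_le (hr'.trans t3))))
    (hM' θ) hμ) (fun θ => by
      rw [abs_mul, abs_of_pos t0]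
      refine mul_le_mul_of_nonneg_left (abs_int fun θ' => ?_) t0.le
      rw [abs_mul]
      exact (mul_le_of_le_one_left (abs_nonneg _) (h1 θ')).trans (hM' θ θ')) hμ
  have e3 := (expand hφ hS.meas hs).trans (pow_le_pow_left₀
    (integral_nonneg fun z => abs_nonneg _) (hS.shell t2 hη) 3)
  rw [hS.diff r0 r2 (cont_G hW)] at e3
  have e4 : ∀ r θ, G φ (pol r θ) = G φ r := fun r θ => by
    rw [pol_eq, G_rot (norm_pol zero_le_one θ)]
  simp only [e4] at e3
  simp only [mul_left_comm _ t, intervalIntegral.integral_const_mul] at e2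
  have e5 : 2 * π * (2 * (2 * π * (2 * (ε / (400 * π ^ 2)) * (2 * t) + (C + 2) * t ^ 2 * M)) *
      (2 * t) + (C + 2) * t ^ 2 * (t * (2 * π * M))) =
      (4 * ε / 25 + 20 * π ^ 2 * (C + 2) * M * t) * t ^ 2 := by field_simp; ring
  have e6 := mul_le_mul_of_nonneg_right t4 (sq_nonneg t)
  have e7 : 0 ≤ ε * t ^ 2 := by positivity
  simp only [mul_left_comm _ t] at e5
  rw [e5] at e2
  rw [abs_le] at e2 e3 ⊢
  simp only [Gm, B]
  constructor <;> nlinarith [e2.1, e2.2, e3.1, e3.2]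

end Pool.Agent.Lib.MP_92974c_pr.Loc
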