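import Pool.Agent.Lib.MP_92974c_pr.Basic

open MeasureTheory Set EuclideanGeometry
open scoped ENNReal Real

namespace Pool.Agent.Lib.MP_92974c_pr

/-- apex of the equilateral triangle on the base 0, 1 -/
noncomputable def om (σ : ℝ) : ℂ := ⟨1 / 2, σ * (√3 / 2)⟩

lemma sides_aux {k a b c : ℝ} (hk : 0 < k) (hk1 : k ≤ 1) (ha : 0 < a) (hab : a ≤ b) (hbc : b ≤ c)
    (h : k * (a * b) ≤ a ^ 2 + b ^ 2 - c ^ 2) : k ^ 2 * c ^ 2 ≤ (2 - k) * a ^ 2 := by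
  have hb : 0 < b := lt_of_lt_of_le ha hab
  have h1 : k * b ≤ a := by
    have : b ^ 2 ≤ c ^ 2 := by gcongr
    have h2 : (k * b) * a ≤ a * a := by nlinarith
    exact le_of_mul_le_mul_right h2 ha
  have h2 : c ^ 2 ≤ (2 - k) * b ^ 2 := by
    have : a * a ≤ a * b := by gcongr
    have : (1 - k) * (a * b) ≤ (1 - k) * (b * b) := by
      apply mul_le_mul_of_nonneg_left _ (by linarith); gcongr
    nlinarith
  have h3 : (k * b) ^ 2 ≤ a ^ 2 := by gcongr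
  calc k ^ 2 * c ^ 2 ≤ k ^ 2 * ((2 - k) * b ^ 2) := by gcongr
    _ = (2 - k) * (k * b) ^ 2 := by ring
    _ ≤ (2 - k) * a ^ 2 := by apply mul_le_mul_of_nonneg_left h3; linarith

lemma sides {k a b c : ℝ} (hk : 0 < k) (hk1 : k ≤ 1) (ha : 0 < a) (hb : 0 < b) (hc : 0 < c)
    (h1 : k * (a * b) ≤ a ^ 2 + b ^ 2 - c ^ 2)
    (h3 : k * (c * a) ≤ c ^ 2 + a ^ 2 - b ^ 2) : k ^ 2 * c ^ 2 ≤ (2 - k) * a ^ 2 := by
  have hk2 : 0 < 2 - k := by linarith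
  have hkk : k ^ 2 ≤ 2 - k := by nlinarith
  rcases le_total c a with hca | hac
  · have : c ^ 2 ≤ a ^ 2 := by gcongr
    calc k ^ 2 * c ^ 2 ≤ k ^ 2 * a ^ 2 := by gcongr
      _ ≤ _ := by gcongr
  rcases le_total a b with hab | hba
  · rcases le_total b c with hbc | hcb
    · exact sides_aux hk hk1 ha hab hbc h1
    · have := sides_aux hk hk1 ha hac hcb (by linarith)
      have h4 : c ^ 2 ≤ b ^ 2 := by gcongr
      calc k ^ 2 * c ^ 2 ≤ k ^ 2 * b ^ 2 := by gcongr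
        _ ≤ _ := this
  · have := sides_aux hk hk1 hb hba hac (by linarith)
    have h4 : b ^ 2 ≤ a ^ 2 := by gcongr
    calc k ^ 2 * c ^ 2 ≤ (2 - k) * b ^ 2 := this
      _ ≤ _ := by gcongr

lemma inner_of_angle_le {u v : ℂ} {t φ : ℝ} (ht : 0 < t) (ht1 : t ≤ 1) (hφ : φ < Real.arccos t)
    (h : InnerProductGeometry.angle u v ≤ φ) :
    0 < ‖u‖ ∧ 0 < ‖v‖ ∧ 2 * t * (‖u‖ * ‖v‖) ≤ ‖u‖ ^ 2 + ‖v‖ ^ 2 - ‖u - v‖ ^ 2 := by
  have hc : t ≤ Real.cos (InnerProductGeometry.angle u v) := by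
    have := Real.cos_le_cos_of_nonneg_of_le_pi (InnerProductGeometry.angle_nonneg u v)
      (Real.arccos_le_pi t) (h.trans hφ.le)
    rwa [Real.cos_arccos (by linarith) ht1] at this
  have hu : u ≠ 0 := by
    rintro rfl
    simp at hc; linarith
  have hv : v ≠ 0 := by
    rintro rfl
    simp at hc; linarith
  refine ⟨norm_pos_iff.mpr hu, norm_pos_iff.mpr hv, ?_⟩
  have h1 := InnerProductGeometry.cos_angle_mul_norm_mul_norm u v
  have h2 := norm_sub_sq_real u v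
  have h3 : t * (‖u‖ * ‖v‖) ≤ Real.cos (InnerProductGeometry.angle u v) * (‖u‖ * ‖v‖) := by
    gcongr
  linarith

/-- the threshold angle -/
noncomputable def φ₀ : ℝ := Real.arccos (1 / 2 - 1 / 10 ^ 6)

lemma φ₀_gt : π / 3 < φ₀ := by
  have h : Real.arccos (1 / 2) = π / 3 := by
    rw [← Real.cos_pi_div_three, Real.arccos_cos] <;> linarith [Real.pi_pos]
  rw [← h, φ₀]
  apply Real.arccos_lt_arccos <;> norm_num

lemma tri_sides {φ : ℝ} (hφ : φ < φ₀) {x y z : ℂ} (h : Tri φ x y z) :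
    0 < ‖x - y‖ ∧ 0 < ‖z - y‖ ∧ 2 * (1 / 2 - 1 / 10 ^ 6) * (‖x - y‖ * ‖z - y‖) ≤
      ‖x - y‖ ^ 2 + ‖z - y‖ ^ 2 - ‖x - z‖ ^ 2 := by
  have := inner_of_angle_le (t := 1 / 2 - 1 / 10 ^ 6) (by norm_num) (by norm_num) hφ h.1
  simpa using this

lemma key (t : ℝ) (ht : 0 ≤ t) (h1 : t ^ 2 ≤ 3 / 4 + 3 / 10 ^ 5)
    (h2 : 3 / 4 - 3 / 10 ^ 5 ≤ t ^ 2) : (t - √3 / 2) ^ 2 ≤ (5 / 10 ^ 5) ^ 2 := by
  have s3 : (√3) ^ 2 = 3 := Real.sq_sqrt (by norm_num)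
  have s3' : 1.7 < √3 := by
    rw [Real.lt_sqrt (by norm_num)]; norm_num
  have s3'' : √3 < 1.8 := by
    rw [Real.sqrt_lt' (by norm_num)]; norm_num
  apply sq_le_sq'
  · by_contra hcon
    push Not at hcon
    have : t ^ 2 ≤ (√3 / 2 - 5 / 10 ^ 5) ^ 2 := by
      apply pow_le_pow_left₀ ht; linarith
    nlinarith
  · by_contra hcon
    push Not at hcon
    have : (√3 / 2 + 5 / 10 ^ 5) ^ 2 ≤ t ^ 2 := by
      apply pow_le_pow_left₀ (by linarith); linarith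
    nlinarith

lemma near {φ : ℝ} (hφ : φ < φ₀) {w : ℂ} (h : Tri φ 0 1 w) :
    ∃ σ : ℝ, (σ = 1 ∨ σ = -1) ∧ ‖w - om σ‖ ≤ 1 / 10 ^ 4 := by
  obtain ⟨-, ha, h1⟩ := tri_sides hφ h
  obtain ⟨-, hb, h2⟩ := tri_sides hφ (Tri.rot.mp h)
  obtain ⟨-, -, h3⟩ := tri_sides hφ (Tri.rot.mp (Tri.rot.mp h))
  simp only [zero_sub, norm_neg, norm_one, sub_zero, norm_sub_rev 1 w] at ha hb h1 h2 h3
  set a := ‖w - 1‖ with hadef
  set b := ‖w‖ with hbdef
  set k : ℝ := 2 * (1 / 2 - 1 / 10 ^ 6) with hk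
  have hk0 : 0 < k := by rw [hk]; norm_num
  have hk1 : k ≤ 1 := by rw [hk]; norm_num
  have e1 := sides hk0 hk1 one_pos hb ha (by linarith) (by linarith)
  have e2 := sides hk0 hk1 ha hb one_pos (by linarith) (by linarith)
  have e3 := sides hk0 hk1 one_pos ha hb (by linarith) (by linarith)
  have e4 := sides hk0 hk1 hb ha one_pos (by linarith) (by linarith)
  rw [hk] at e1 e2 e3 e4
  have a1 : a ^ 2 ≤ 1 + 1 / 10 ^ 5 := by norm_num at e1 ⊢; linarith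
  have a2 : 1 - 1 / 10 ^ 5 ≤ a ^ 2 := by norm_num at e2 ⊢; linarith
  have b1 : b ^ 2 ≤ 1 + 1 / 10 ^ 5 := by norm_num at e3 ⊢; linarith
  have b2 : 1 - 1 / 10 ^ 5 ≤ b ^ 2 := by norm_num at e4 ⊢; linarith
  have hb2 : b ^ 2 = w.re ^ 2 + w.im ^ 2 := by
    rw [hbdef, ← Complex.normSq_eq_norm_sq, Complex.normSq_apply]; ring
  have ha2 : a ^ 2 = (w.re - 1) ^ 2 + w.im ^ 2 := by
    rw [hadef, ← Complex.normSq_eq_norm_sq, Complex.normSq_apply]; simp; ring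
  clear e1 e2 e3 e4 h1 h2 h3 hk0 hk1 hk
  have r1 : w.re - 1 / 2 ≤ 1 / 10 ^ 5 := by nlinarith
  have r2 : -(1 / 10 ^ 5) ≤ w.re - 1 / 2 := by nlinarith
  have hre : (w.re - 1 / 2) ^ 2 ≤ (1 / 10 ^ 5) ^ 2 := by
    apply sq_le_sq' <;> linarith
  have i1 : w.im ^ 2 ≤ 3 / 4 + 3 / 10 ^ 5 := by nlinarith
  have i2 : 3 / 4 - 3 / 10 ^ 5 ≤ w.im ^ 2 := by nlinarith
  have fin : ∀ σ : ℝ, (w.im - σ * (√3 / 2)) ^ 2 ≤ (5 / 10 ^ 5) ^ 2 → ‖w - om σ‖ ≤ 1 / 10 ^ 4 := by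
    intro σ hσ
    apply abs_le_of_sq_le_sq' _ (by norm_num) |>.2
    rw [← Complex.normSq_eq_norm_sq, Complex.normSq_apply]
    simp only [om, Complex.sub_re, Complex.sub_im]
    norm_num at hσ hre ⊢
    nlinarith
  rcases le_total 0 w.im with hi | hi
  · exact ⟨1, Or.inl rfl, fin 1 (by simpa using key w.im hi i1 i2)⟩
  · refine ⟨-1, Or.inr rfl, fin (-1) ?_⟩
    have := key (-w.im) (by linarith) (by simpa using i1) (by simpa using i2)
    nlinarith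

lemma norm_om {σ : ℝ} (hσ : σ = 1 ∨ σ = -1) : ‖om σ‖ = 1 := by
  have s3 : (√3) ^ 2 = 3 := Real.sq_sqrt (by norm_num)
  have : ‖om σ‖ ^ 2 = 1 ^ 2 := by
    rw [← Complex.normSq_eq_norm_sq, Complex.normSq_apply]
    simp only [om]
    rcases hσ with rfl | rfl <;> nlinarith
  exact (sq_eq_sq₀ (norm_nonneg _) zero_le_one).mp this

lemma angle_eq_third {u v : ℂ} (hu : ‖u‖ = 1) (hv : ‖v‖ = 1) (huv : ‖u - v‖ = 1) :
    InnerProductGeometry.angle u v = π / 3 := by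
  have h2 := norm_sub_sq_real u v
  unfold InnerProductGeometry.angle
  have : inner ℝ u v / (‖u‖ * ‖v‖) = 1 / 2 := by
    rw [hu, hv, huv] at *; linarith
  rw [this, ← Real.cos_pi_div_three, Real.arccos_cos] <;> linarith [Real.pi_pos]

lemma W_pos {φ : ℝ} (hφ : π / 3 < φ) : 0 < volume {w : ℂ | Tri φ 0 1 w} := by
  have h0 : ‖om 1‖ = 1 := norm_om (Or.inl rfl)
  have h1 : ‖om 1 - 1‖ = 1 := by
    have : om 1 - 1 = -om (-1) := by
      apply Complex.ext <;> simp [om]; norm_num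
    rw [this, norm_neg, norm_om (Or.inr rfl)]
  have n0 : om 1 ≠ 0 := by intro h; simp [h] at h0
  have n1 : om 1 ≠ 1 := by intro h; simp [h] at h1
  refine Measure.measure_pos_of_mem_nhds (μ := volume) (x := om 1) ?_
  have c1 : ContinuousAt (fun w : ℂ => ∠ (0 : ℂ) 1 w) (om 1) :=
    (continuousAt_angle (V := ℂ) (x := ((0 : ℂ), (1 : ℂ), om 1)) (by simp) n1).comp
      (f := fun w : ℂ => ((0 : ℂ), (1 : ℂ), w)) (by fun_prop)
  have c2 : ContinuousAt (fun w : ℂ => ∠ (1 : ℂ) w 0) (om 1) :=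
    (continuousAt_angle (V := ℂ) (x := ((1 : ℂ), om 1, (0 : ℂ))) n1.symm n0.symm).comp
      (f := fun w : ℂ => ((1 : ℂ), w, (0 : ℂ))) (by fun_prop)
  have c3 : ContinuousAt (fun w : ℂ => ∠ w (0 : ℂ) 1) (om 1) :=
    (continuousAt_angle (V := ℂ) (x := (om 1, (0 : ℂ), (1 : ℂ))) n0 (by simp)).comp
      (f := fun w : ℂ => (w, (0 : ℂ), (1 : ℂ))) (by fun_prop)
  have a1 : ∠ (0 : ℂ) 1 (om 1) < φ := by
    unfold EuclideanGeometry.angle
    rw [angle_eq_third (by simp) (by simp [h1])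
      (by rw [vsub_eq_sub, vsub_eq_sub, sub_sub_sub_cancel_right]; simp [h0])]
    exact hφ
  have a2 : ∠ (1 : ℂ) (om 1) 0 < φ := by
    unfold EuclideanGeometry.angle
    rw [angle_eq_third] <;> simp [hφ, h0, h1, norm_sub_rev 1 (om 1)]
  have a3 : ∠ (om 1) (0 : ℂ) 1 < φ := by
    unfold EuclideanGeometry.angle
    rw [angle_eq_third] <;> simp [hφ, h0, h1]
  filter_upwards [c1.eventually_lt continuousAt_const a1, c2.eventually_lt continuousAt_const a2,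
    c3.eventually_lt continuousAt_const a3] with w h1 h2 h3
  exact ⟨h1.le, h2.le, h3.le⟩

lemma W_lt_top {φ : ℝ} (hφ : φ < φ₀) : volume {w : ℂ | Tri φ 0 1 w} < ⊤ := by
  refine lt_of_le_of_lt (measure_mono (t := Metric.closedBall 0 2) ?_) measure_closedBall_lt_top
  intro w hw
  obtain ⟨σ, hσ, h⟩ := near hφ hw
  have := norm_om hσ
  have h2 := norm_le_insert' w (om σ)
  simp only [Metric.mem_closedBall, dist_zero_right]
  norm_num at h
  linarith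

end Pool.Agent.Lib.MP_92974c_pr
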