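import Pool.Agent.Lib.MP_92974c_pr.LocB
import Pool.Agent.Lib.MP_92974c_pr.Near

/-! Second variation at the disc, part C: the fourth mode beats the first. -/

open MeasureTheory Set EuclideanGeometry Metric Filter Topology Real
open scoped ENNReal

namespace Pool.Agent.Lib.MP_92974c_pr.Loc

variable {φ : ℝ}

lemma per_mul {F : ℝ → ℝ} (hF : Continuous F) (hp : Function.Periodic F (2 * π)) {k : ℕ}
    (hk : k ≠ 0) : ∫ θ in (-π)..π, F (k * θ) = ∫ θ in (-π)..π, F θ := by
  have h0 : (k : ℝ) ≠ 0 := by exact_mod_cast hk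
  have e1 : (k : ℝ) * π = k * -π + (k : ℤ) • (2 * π) := by simp; ring
  have e2 := hp.intervalIntegral_add_eq (k * -π) (-π)
  rw [show -π + 2 * π = π by ring] at e2
  rw [intervalIntegral.integral_comp_mul_left _ h0, e1,
    hp.intervalIntegral_add_zsmul_eq _ _ fun _ _ => hF.intervalIntegrable _ _, e2]
  simp [h0]

lemma pol_add (a b : ℝ) : pol 1 (a + b) = pol 1 a * pol 1 b := by
  simp only [pol, Complex.ofReal_cos, Complex.ofReal_sin, ← Complex.exp_mul_I, Complex.ofReal_one,
    one_mul, ← Complex.exp_add, Complex.ofReal_add, add_mul]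

/-- the kernel on the circle -/
noncomputable def ka (φ τ : ℝ) : ℝ := K φ 1 (pol 1 τ)

lemma cont_ka (hW : volume (W φ) < ⊤) : Continuous (ka φ) :=
  (cont_K hW).comp (continuous_const.prodMk (cont_pol.comp (Continuous.prodMk_right 1)))

lemma K_ka (θ θ' : ℝ) : K φ (pol 1 θ) (pol 1 θ') = ka φ (θ' - θ) := by
  rw [ka, ← K_rot (norm_pol zero_le_one θ) 1, mul_one, ← pol_add, add_sub_cancel]

lemma B_cos (hW : volume (W φ) < ⊤) {k : ℕ} (hk : k ≠ 0) :
    B φ (fun θ => -cos (k * θ)) = π * ∫ τ in (-π)..π, cos (k * τ) * ka φ τ := by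
  have hc := cont_ka hW
  set A := ∫ τ in (-π)..π, cos (k * τ) * ka φ τ with hA
  set A' := ∫ τ in (-π)..π, sin (k * τ) * ka φ τ with hA'
  have e : ∀ θ, ∫ θ' in (-π)..π, -cos (k * θ') * K φ (pol 1 θ) (pol 1 θ') =
      sin (k * θ) * A' - cos (k * θ) * A := fun θ => by
    have hp : Function.Periodic (fun τ => -cos (k * (τ + θ)) * ka φ τ) (2 * π) := fun τ => by
      simp only [ka, pol, cos_add_two_pi, sin_add_two_pi]
      rw [show k * (τ + 2 * π + θ) = k * (τ + θ) + k * (2 * π) by ring, cos_add_nat_mul_two_pi]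
    have e1 := intervalIntegral.integral_comp_sub_right (a := -π) (b := π)
      (fun τ => -cos (k * (τ + θ)) * ka φ τ) θ
    have e2 := hp.intervalIntegral_add_eq (-π - θ) (-π)
    rw [show -π + 2 * π = π by ring, show -π - θ + 2 * π = π - θ by ring] at e2
    simp only [sub_add_cancel] at e1
    simp only [K_ka]
    rw [e1, e2, hA, hA', ← intervalIntegral.integral_const_mul,
      ← intervalIntegral.integral_const_mul, ← intervalIntegral.integral_sub
        (Continuous.intervalIntegrable (by fun_prop) _ _)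
        (Continuous.intervalIntegrable (by fun_prop) _ _)]
    congr 1
    funext τ
    rw [mul_add, cos_add]; ring
  simp only [B, e]
  rw [per_mul (F := fun θ => -cos θ * (sin θ * A' - cos θ * A)) (by fun_prop)
    (fun θ => by simp) hk]
  have : ∀ θ, -cos θ * (sin θ * A' - cos θ * A) = cos θ ^ 2 * A - sin θ * cos θ * A' :=
    fun θ => by ring
  simp only [this]
  rw [intervalIntegral.integral_sub (Continuous.intervalIntegrable (by fun_prop) _ _)
    (Continuous.intervalIntegrable (by fun_prop) _ _), intervalIntegral.integral_mul_const,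
    intervalIntegral.integral_mul_const, integral_cos_sq, integral_sin_mul_cos₁]
  simp

/-- the weight -/
noncomputable def ps (τ : ℝ) : ℝ := (cos (4 * τ) - cos τ) * (2 - 2 * cos τ)

lemma cont_ps : Continuous ps := by unfold ps; fun_prop

lemma int_ps (s : ℝ) : ∫ τ in (0 : ℝ)..s, ps τ = s - sin s *
    (16 / 5 * cos s ^ 4 - 4 * cos s ^ 3 - 16 / 15 * cos s ^ 2 + cos s + 28 / 15) := by
  rw [intervalIntegral.integral_eq_sub_of_hasDerivAt (f := fun s => s - sin s *
    (16 / 5 * cos s ^ 4 - 4 * cos s ^ 3 - 16 / 15 * cos s ^ 2 + cos s + 28 / 15)) ?_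
    (cont_ps.intervalIntegrable _ _)]
  · simp
  · intro x _
    have c := hasDerivAt_cos x
    refine ((hasDerivAt_id x).sub ((hasDerivAt_sin x).mul ((((((c.pow 4).const_mul (16 / 5)).sub
      ((c.pow 3).const_mul 4)).sub ((c.pow 2).const_mul (16 / 15))).add c).add_const
        (28 / 15)))).congr_deriv ?_
    rw [ps, show 4 * x = 2 * (2 * x) by ring, cos_two_mul, cos_two_mul]
    simp only [Pi.add_apply, Pi.sub_apply, Pi.pow_apply]
    have := sin_sq_add_cos_sq x
    norm_num
    linear_combination (64 / 5 * cos x ^ 3 - 12 * cos x ^ 2 - 32 / 15 * cos x + 1) * this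

lemma ps_pos {s : ℝ} (h1 : 5 * π / 9 ≤ s) (h2 : s ≤ 3 * π / 4) :
    1 / 1000 ≤ ∫ τ in (0 : ℝ)..s, ps τ := by
  have p1 := pi_gt_d4
  have p2 := pi_lt_d4
  have a : cos s ≤ -0.17 := by
    refine (cos_le_cos_of_nonneg_of_le_pi (by positivity) (by linarith) h1).trans ?_
    rw [show 5 * π / 9 = π / 18 + π / 2 by ring, cos_add_pi_div_two]
    have := sin_gt_sub_cube (x := π / 18) (by positivity)
    have : (π / 18) ^ 3 ≤ 0.18 ^ 3 := pow_le_pow_left₀ (by positivity) (by linarith) 3
    linarith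
  have b : -0.7072 ≤ cos s := by
    refine le_trans ?_ (cos_le_cos_of_nonneg_of_le_pi (by linarith) (by linarith) h2)
    rw [show 3 * π / 4 = π - π / 4 by ring, cos_pi_sub, cos_pi_div_four]
    have : √2 < 1.4144 := by rw [sqrt_lt' (by norm_num)]; norm_num
    linarith
  have t : cos (2 * π / 3) = -1 / 2 := by
    rw [show 2 * π / 3 = π - π / 3 by ring, cos_pi_sub, cos_pi_div_three]; ring
  have e := sin_sq_add_cos_sq s
  rw [int_ps]
  obtain ⟨x, hx⟩ : ∃ x, cos s = -x := ⟨-cos s, by ring⟩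
  generalize sin s = y at e
  have x0 : 0.17 ≤ x := by linarith
  have x3 : 0 ≤ x ^ 3 := by positivity
  have x4 : 0 ≤ x ^ 4 := by positivity
  have q0 : 0 ≤ 16 / 5 * x ^ 4 + 4 * x ^ 3 - 16 / 15 * x ^ 2 - x + 28 / 15 := by nlinarith
  rcases le_total s (2 * π / 3) with h | h
  · have c := cos_le_cos_of_nonneg_of_le_pi (by linarith) (by linarith) h
    rw [t] at c
    rw [hx] at e c ⊢
    have y1 : y ≤ 25 / 24 - 7 / 24 * x := by nlinarith [sq_nonneg (y - 24 / 25), sq_nonneg (x - 7 / 25)]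
    have q1 : 16 / 5 * x ^ 4 + 4 * x ^ 3 - 16 / 15 * x ^ 2 - x + 28 / 15 ≤
        28 / 15 - x + 26 / 15 * x ^ 2 := by
      nlinarith [mul_nonneg (sq_nonneg x) (show 0 ≤ 1 / 2 - x by linarith),
        mul_nonneg x3 (show 0 ≤ 1 / 2 - x by linarith)]
    have := mul_le_mul y1 q1 q0 (by linarith)
    nlinarith [mul_nonneg (show 0 ≤ x - 0.17 by linarith) (show 0 ≤ 1 / 2 - x by linarith)]
  · have c := cos_le_cos_of_nonneg_of_le_pi (by positivity) (by linarith) h
    rw [t] at c
    rw [hx] at e c b ⊢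
    have y1 : y ≤ 5 / 4 - 3 / 4 * x := by nlinarith [sq_nonneg (y - 4 / 5), sq_nonneg (x - 3 / 5)]
    have m := mul_nonneg (show 0 ≤ x - 1 / 2 by linarith) (show 0 ≤ 0.7072 - x by linarith)
    have q1 : 16 / 5 * x ^ 4 + 4 * x ^ 3 - 16 / 15 * x ^ 2 - x + 28 / 15 ≤
        9 / 5 + 5.1 * (x - 1 / 2) := by
      nlinarith [mul_nonneg m (show 0 ≤ x by linarith), mul_nonneg m (sq_nonneg x)]
    have := mul_le_mul y1 q1 q0 (by linarith)
    nlinarith

lemma cos_lt_iff {C τ : ℝ} (h0 : 0 < C) (h1 : C < π / 2) (a : -π ≤ τ) (b : τ ≤ π) :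
    cos C < cos (τ - C) ↔ τ ∈ Ioo 0 (2 * C) := by
  constructor
  · intro h
    by_contra hc
    rcases not_and_or.1 hc with h2 | h2
    · rw [← cos_neg (τ - C)] at h
      rcases le_total (-(τ - C)) π with h3 | h3
      · exact absurd h (cos_le_cos_of_nonneg_of_le_pi h0.le h3 (by linarith)).not_gt
      · linarith [cos_nonpos_of_pi_div_two_le_of_le (x := -(τ - C)) (by linarith) (by linarith),
          cos_pos_of_mem_Ioo (x := C) ⟨by linarith, h1⟩]
    · exact absurd h (cos_le_cos_of_nonneg_of_le_pi h0.le (by linarith) (by linarith)).not_gt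
  · intro h
    rw [← cos_abs (τ - C)]
    exact cos_lt_cos_of_nonneg_of_le_pi (abs_nonneg _) (by linarith)
      (abs_lt.2 ⟨by linarith [h.1], by linarith [h.2]⟩)

/-- the inscribed angle theorem -/
lemma arc {w : ℂ} (h0 : 0 < ∠ 1 w 0) (h1 : ∠ 1 w 0 < π / 2) :
    ∫ τ in Ioc (-π) π, ps τ * I D (1 + (pol 1 τ - 1) * w) = ∫ τ in (0 : ℝ)..2 * ∠ 1 w 0, ps τ := by
  have c := InnerProductGeometry.cos_angle_mul_norm_mul_norm (1 - w) (0 - w)
  have s := InnerProductGeometry.sin_angle_mul_norm_mul_norm (1 - w) (0 - w)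
  have hN : 0 < ‖1 - w‖ * ‖0 - w‖ := by
    refine mul_pos (norm_pos_iff.2 fun h => ?_) (norm_pos_iff.2 fun h => ?_) <;>
      simp [angle, h] at h1
  change cos (∠ 1 w 0) * _ = _ at c
  change sin (∠ 1 w 0) * _ = _ at s
  have e : inner ℝ (1 - w) (1 - w) * inner ℝ (0 - w) (0 - w) -
      inner ℝ (1 - w) (0 - w) * inner ℝ (1 - w) (0 - w) = w.im ^ 2 := by
    simp only [Complex.inner]; simp; ring
  have e' : inner ℝ (1 - w) (0 - w) = w.re ^ 2 + w.im ^ 2 - w.re := by
    simp only [Complex.inner]; simp; ring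
  rw [e, sqrt_sq_eq_abs] at s
  rw [e'] at c
  generalize ‖1 - w‖ * ‖0 - w‖ = N at hN c s
  generalize ∠ 1 w 0 = C at *
  have m : ∀ τ, 1 + (pol 1 τ - 1) * w ∈ D ↔ cos C * N * (1 - cos τ) < w.im * sin τ := fun τ => by
    rw [mem_ball_zero_iff, ← sq_lt_one_iff₀ (norm_nonneg _), Complex.sq_norm, Complex.normSq_apply,
      c]
    simp only [Complex.add_re, Complex.add_im, Complex.mul_re, Complex.mul_im, Complex.sub_re,
      Complex.sub_im, pol_re, pol_im, Complex.one_re, Complex.one_im]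
    have := sin_sq_add_cos_sq τ
    have q := congrArg ((w.re ^ 2 + w.im ^ 2) * ·) this
    constructor <;> intro h <;> nlinarith
  have g : ∀ T : Set ℝ, MeasurableSet T → T ⊆ Ioc (-π) π →
      (∀ τ ∈ Ioc (-π) π, 1 + (pol 1 τ - 1) * w ∈ D ↔ τ ∈ T) →
      ∫ τ in Ioc (-π) π, ps τ * I D (1 + (pol 1 τ - 1) * w) = ∫ τ in T, ps τ := fun T a b d => by
    rw [setIntegral_congr_fun measurableSet_Ioc (g := T.indicator ps) fun τ hτ => ?_,
      setIntegral_indicator a, inter_eq_right.2 b]
    by_cases h : τ ∈ T <;> simp [I, d τ hτ, h]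
  rcases le_total 0 w.im with h | h
  · rw [abs_of_nonneg h] at s
    rw [g (Ioo 0 (2 * C)) measurableSet_Ioo (fun τ hτ => ⟨by linarith [hτ.1], by linarith [hτ.2]⟩)
      fun τ hτ => ?_, intervalIntegral.integral_of_le (by linarith), integral_Ioc_eq_integral_Ioo]
    rw [m, ← cos_lt_iff h0 h1 hτ.1.le hτ.2, ← s, cos_sub]
    constructor <;> intro h <;> nlinarith
  · rw [abs_of_nonpos h] at s
    have n := intervalIntegral.integral_comp_neg (a := 0) (b := 2 * C) ps
    simp only [ps, cos_neg, mul_neg, neg_zero] at n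
    rw [g (Ioo (-(2 * C)) 0) measurableSet_Ioo
      (fun τ hτ => ⟨by linarith [hτ.1], by linarith [hτ.2]⟩) fun τ hτ => ?_]
    · simp only [ps]
      rw [n, intervalIntegral.integral_of_le (by linarith), integral_Ioc_eq_integral_Ioo]
    · have : τ ∈ Ioo (-(2 * C)) 0 ↔ -τ ∈ Ioo 0 (2 * C) :=
        ⟨fun h => ⟨by linarith [h.2], by linarith [h.1]⟩,
          fun h => ⟨by linarith [h.2], by linarith [h.1]⟩⟩
      rw [m, this, ← cos_lt_iff h0 h1 (by linarith [hτ.2]) (by linarith [hτ.1]), cos_sub, cos_neg,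
        sin_neg, show w.im = -(sin C * N) by linarith]
      constructor <;> intro h <;> nlinarith

lemma W_fin (hφ : φ ≤ 13 * π / 36) : volume (W φ) < ⊤ := by
  have p1 := pi_gt_d2
  have p2 := pi_lt_d2
  have h : φ < arccos (2 / 5) := by
    refine hφ.trans_lt ?_
    rw [← arccos_cos (x := 13 * π / 36) (by positivity) (by linarith)]
    refine arccos_lt_arccos (by norm_num) ?_ (cos_le_one _)
    rw [show 13 * π / 36 = π / 2 - 5 * π / 36 by ring, cos_pi_div_two_sub]
    have := sin_gt_sub_cube (x := 5 * π / 36) (by positivity)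
    have : (5 * π / 36) ^ 3 ≤ 0.44 ^ 3 := pow_le_pow_left₀ (by positivity) (by linarith) 3
    linarith
  refine lt_of_le_of_lt (measure_mono (t := closedBall 0 2) fun w hw => ?_)
    measure_closedBall_lt_top
  obtain ⟨-, a1, a2⟩ := inner_of_angle_le (by norm_num) (by norm_num) h hw.1
  obtain ⟨b1, -, b2⟩ := inner_of_angle_le (by norm_num) (by norm_num) h hw.2.2
  rw [vsub_eq_sub, vsub_eq_sub, sub_sub_sub_cancel_right] at a2
  simp only [vsub_eq_sub, sub_zero, zero_sub, norm_neg, norm_one] at a1 a2 b1 b2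
  have := sides (k := 4 / 5) (a := 1) (by norm_num) (by norm_num) one_pos a1 b1
    (by linarith) (by linarith)
  rw [mem_closedBall_zero_iff]
  nlinarith

lemma B_lt (h1 : π / 3 < φ) (h2 : φ ≤ 13 * π / 36) :
    B φ (fun θ => -cos θ) < B φ fun θ => -cos (4 * θ) := by
  have hpi := pi_pos
  have hW := W_fin h2
  have hc := cont_ka hW
  have a := B_cos hW one_ne_zero
  have b := B_cos hW four_ne_zero
  simp only [Nat.cast_one, one_mul, Nat.cast_ofNat] at a b
  rw [a, b]
  refine mul_lt_mul_of_pos_left ?_ hpi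
  rw [← sub_pos, ← intervalIntegral.integral_sub (Continuous.intervalIntegrable (by fun_prop) _ _)
    (Continuous.intervalIntegrable (by fun_prop) _ _)]
  have e : ∀ τ, cos (4 * τ) * ka φ τ - cos τ * ka φ τ =
      ∫ w in W φ, ps τ * I D (1 + (pol 1 τ - 1) * w) := fun τ => by
    have : ‖pol 1 τ - 1‖ ^ 2 = 2 - 2 * cos τ := by
      rw [Complex.sq_norm, Complex.normSq_apply]
      simp only [Complex.sub_re, Complex.sub_im, pol_re, pol_im, Complex.one_re, Complex.one_im]
      linarith [sin_sq_add_cos_sq τ]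
    rw [integral_const_mul, ka, K, this, ps]; ring
  simp only [e]
  have : IsFiniteMeasure (volume.restrict (W φ)) := isFiniteMeasure_restrict.2 hW.ne
  have hi : Integrable (Function.uncurry fun τ w => ps τ * I D (1 + (pol 1 τ - 1) * w))
      ((volume.restrict (Ioc (-π) π)).prod (volume.restrict (W φ))) := by
    refine Integrable.mul_bdd (c := 1) ((cont_ps.integrableOn_Ioc).comp_fst _) ?_
      (Eventually.of_forall fun p => abs_ind _ _)
    have : Continuous fun p : ℝ × ℂ => pol 1 p.1 :=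
      cont_pol.comp (continuous_const.prodMk continuous_fst)
    exact ((measurable_one.indicator measurableSet_ball).comp
      (Continuous.measurable (by fun_prop))).aestronglyMeasurable
  rw [intervalIntegral.integral_of_le (by linarith), integral_integral_swap hi]
  refine lt_of_lt_of_le ?_ (setIntegral_ge_of_const_le_real (c := 1 / 1000) (measurableSet_W φ)
    hW.ne (fun w hw => ?_) hi.integral_prod_right)
  · exact mul_pos (by norm_num) (ENNReal.toReal_pos (W_pos h1).ne' hW.ne)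
  · have s := angle_add_angle_add_angle_eq_pi (p₁ := (0 : ℂ)) (p₂ := 1) w one_ne_zero
    obtain ⟨a1, a2, a3⟩ := hw
    rw [arc (by linarith) (by linarith)]
    exact ps_pos (by linarith) (by linarith)

end Pool.Agent.Lib.MP_92974c_pr.Loc
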