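import Pool.Agent.Lib.MP_92974c_pr.Main

open MeasureTheory Set EuclideanGeometry ProbabilityTheory
open scoped ENNReal Real

namespace Pool.Agent.Lib.MP_92974c_pr

/-- the Euclidean plane as the complex plane -/
noncomputable def toC : EuclideanSpace ℝ (Fin 2) ≃ₗᵢ[ℝ] ℂ := Complex.orthonormalBasisOneI.repr.symm

lemma toC_re (x : EuclideanSpace ℝ (Fin 2)) : (toC x).re = x 0 := by
  simp [toC]

lemma toC_im (x : EuclideanSpace ℝ (Fin 2)) : (toC x).im = x 1 := by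
  simp [toC]

lemma angle_toC (x y z : EuclideanSpace ℝ (Fin 2)) : ∠ (toC x) (toC y) (toC z) = ∠ x y z := by
  unfold EuclideanGeometry.angle
  simp only [vsub_eq_sub, ← map_sub]
  exact toC.toLinearIsometry.angle_map _ _

lemma transfer {S' : Set ℂ} (hS' : MeasurableSet S') (φ : ℝ) :
    (volume[|toC ⁻¹' S']).prod ((volume[|toC ⁻¹' S']).prod (volume[|toC ⁻¹' S']))
      {p | max (∠ p.1 p.2.1 p.2.2) (max (∠ p.2.1 p.2.2 p.1) (∠ p.2.2 p.1 p.2.1)) ≤ φ} =
    (volume S')⁻¹ ^ 3 * V S' φ := by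
  have hp : MeasurePreserving toC := toC.measurePreserving
  have hv : volume (toC ⁻¹' S') = volume S' := hp.measure_preimage hS'.nullMeasurableSet
  have hm : MeasurableSet
      {p : ℂ × ℂ × ℂ | p.1 ∈ S' ∧ p.2.1 ∈ S' ∧ p.2.2 ∈ S' ∧ Tri φ p.1 p.2.1 p.2.2} :=
    measurableSet_V hS' φ (by fun_prop) (by fun_prop) (by fun_prop)
  have h3 := (hp.prod (hp.prod hp)).measure_preimage hm.nullMeasurableSet
  have hS : MeasurableSet (toC ⁻¹' S') := hp.measurable hS'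
  rw [V, ← h3, ProbabilityTheory.cond, hv, Measure.prod_smul_left, Measure.prod_smul_left,
    Measure.prod_smul_right, Measure.prod_smul_right, Measure.prod_smul_right,
    Measure.prod_restrict, Measure.prod_restrict]
  simp only [Measure.smul_apply, smul_eq_mul]
  rw [Measure.restrict_apply' (hS.prod (hS.prod hS)), ← mul_assoc, ← mul_assoc, ← pow_three']
  congr 2
  ext p
  simp only [mem_inter_iff, mem_ofPred_eq, max_le_iff, mem_prod, mem_preimage, Prod.map, Tri,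
    angle_toC]
  tauto

lemma toC_ball : toC ⁻¹' Metric.ball 0 1 = Metric.ball 0 1 := by
  ext x; simp

lemma toC_Sq : toC ⁻¹' Sq = {x : EuclideanSpace ℝ (Fin 2) | ∀ i, 0 ≤ x i ∧ x i ≤ 1} := by
  ext x; simp [Sq, toC_re, toC_im, Fin.forall_fin_two]

lemma sq_bounded :
    Bornology.IsBounded {x : EuclideanSpace ℝ (Fin 2) | ∀ i, 0 ≤ x i ∧ x i ≤ 1} := by
  refine (Metric.isBounded_closedBall (x := 0) (r := 2)).subset fun x hx => ?_
  rw [mem_closedBall_zero_iff, EuclideanSpace.norm_eq, Real.sqrt_le_left (by norm_num)]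
  have h0 := hx 0
  have h1 := hx 1
  simp only [Fin.sum_univ_two, Real.norm_eq_abs, sq_abs]
  nlinarith [h0.1, h0.2, h1.1, h1.2]

lemma sq_convex : Convex ℝ {x : EuclideanSpace ℝ (Fin 2) | ∀ i, 0 ≤ x i ∧ x i ≤ 1} := by
  intro x hx y hy a b ha hb hab i
  have h1 := hx i
  have h2 := hy i
  simp only [PiLp.add_apply, PiLp.smul_apply, smul_eq_mul]
  constructor <;> nlinarith [h1.1, h1.2, h2.1, h2.2]

lemma sq_interior :
    (interior {x : EuclideanSpace ℝ (Fin 2) | ∀ i, 0 ≤ x i ∧ x i ≤ 1}).Nonempty := by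
  refine ⟨WithLp.toLp 2 fun _ => 1 / 2, ?_⟩
  rw [mem_interior_iff_mem_nhds]
  have : ∀ i : Fin 2, ∀ᶠ x : EuclideanSpace ℝ (Fin 2) in nhds (WithLp.toLp 2 fun _ => 1 / 2),
      0 ≤ x i ∧ x i ≤ 1 := by
    intro i
    have hc : Continuous fun x : EuclideanSpace ℝ (Fin 2) => x i := by fun_prop
    have h1 := hc.continuousAt (x := WithLp.toLp 2 fun _ => 1 / 2) |>.eventually
      (Icc_mem_nhds (a := 0) (b := 1) (by norm_num) (by norm_num))
    exact h1
  exact Filter.eventually_all.mpr this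

theorem main_plane {φ : ℝ} (h1 : π / 3 < φ) (h2 : φ < φ₀) :
    (volume[|Metric.ball (0 : EuclideanSpace ℝ (Fin 2)) 1]).prod
      ((volume[|Metric.ball (0 : EuclideanSpace ℝ (Fin 2)) 1]).prod
        (volume[|Metric.ball (0 : EuclideanSpace ℝ (Fin 2)) 1]))
      {p | max (∠ p.1 p.2.1 p.2.2) (max (∠ p.2.1 p.2.2 p.1) (∠ p.2.2 p.1 p.2.1)) ≤ φ} <
    (volume[|{x : EuclideanSpace ℝ (Fin 2) | ∀ i, 0 ≤ x i ∧ x i ≤ 1}]).prod
      ((volume[|{x : EuclideanSpace ℝ (Fin 2) | ∀ i, 0 ≤ x i ∧ x i ≤ 1}]).prod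
        (volume[|{x : EuclideanSpace ℝ (Fin 2) | ∀ i, 0 ≤ x i ∧ x i ≤ 1}]))
      {p | max (∠ p.1 p.2.1 p.2.2) (max (∠ p.2.1 p.2.2 p.1) (∠ p.2.2 p.1 p.2.1)) ≤ φ} := by
  rw [← toC_ball, ← toC_Sq, transfer measurableSet_ball, transfer measurableSet_Sq, volume_Sq,
    Complex.volume_ball]
  have := main_complex h1 h2
  have e : ((NNReal.pi : NNReal) : ℝ≥0∞) = ENNReal.ofReal π := by
    rw [← ENNReal.ofReal_coe_nnreal]; rfl
  simpa [e] using this

end Pool.Agent.Lib.MP_92974c_pr
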