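import Pool.Agent.Lib.MP_92974c_pr.LocC
import Pool.Agent.Lib.MP_92974c_pr.Transfer

/-! Second variation at the disc, part D: the competitors. -/

open MeasureTheory Set EuclideanGeometry Metric Filter Topology Real ProbabilityTheory
open scoped ENNReal

namespace Pool.Agent.Lib.MP_92974c_pr.Loc

variable {φ t : ℝ}

/-- radial function of the translated disc -/
noncomputable def r1 (t θ : ℝ) : ℝ := -(t * cos θ) + √(1 - t ^ 2 * sin θ ^ 2)

lemma rad_shift (h0 : 0 < t) (h1 : t < 1) : Rad (((t : ℂ) + ·) ⁻¹' D) (r1 t) := by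
  refine ⟨measurable_const_add _ measurableSet_ball, by unfold r1; fun_prop,
    by simpa [abs_of_pos h0] using h1, fun r hr θ => ?_⟩
  rw [mem_preimage, mem_ball_zero_iff, ← sq_lt_one_iff₀ (norm_nonneg _), Complex.sq_norm,
    Complex.normSq_apply, r1, ← sub_lt_iff_lt_add', sub_neg_eq_add]
  simp only [Complex.add_re, Complex.add_im, pol_re, pol_im, Complex.ofReal_re, Complex.ofReal_im]
  have e := sin_sq_add_cos_sq θ
  have e1 := congrArg (t ^ 2 * ·) e
  have e2 := congrArg (r ^ 2 * ·) e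
  have t2 : t ^ 2 < 1 := by nlinarith
  constructor
  · exact fun h => lt_sqrt_of_sq_lt (by nlinarith)
  · intro h
    have a : |t * cos θ| < √(1 - t ^ 2 * sin θ ^ 2) :=
      lt_sqrt_of_sq_lt (by rw [sq_abs]; nlinarith)
    have b := (sq_lt_sq' (by linarith [(abs_lt.1 a).1]) h).trans_eq
      (sq_sqrt (by nlinarith [sq_nonneg (t * cos θ)]))
    nlinarith

lemma r1_est (h1 : t ^ 2 ≤ 1) (θ : ℝ) : |r1 t θ - 1 - t * -cos θ| ≤ t ^ 2 := by
  have s := mul_le_mul_of_nonneg_left (sin_sq_le_one θ) (sq_nonneg t)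
  have s0 := mul_nonneg (sq_nonneg t) (sq_nonneg (sin θ))
  have a : √(1 - t ^ 2 * sin θ ^ 2) ≤ 1 := sqrt_le_one.2 (by linarith)
  have b : 1 - t ^ 2 * sin θ ^ 2 ≤ √(1 - t ^ 2 * sin θ ^ 2) := le_sqrt_of_sq_le (by nlinarith)
  rw [r1, abs_le]
  constructor <;> nlinarith

/-- radial function of the quartic body, before normalisation -/
noncomputable def yy (t θ : ℝ) : ℝ := (√(√(1 + 4 * t * cos θ)))⁻¹

lemma tc (h0 : 0 < t) (θ : ℝ) : |t * cos θ| ≤ t := by
  rw [abs_mul, abs_of_pos h0]; exact mul_le_of_le_one_right h0.le (abs_cos_le_one θ)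

lemma yy_spec (h0 : 0 < t) (h1 : 12 * t ≤ 1) (θ : ℝ) :
    0 < yy t θ ∧ yy t θ ^ 4 * (1 + 4 * t * cos θ) = 1 := by
  have a : 0 < 1 + 4 * t * cos θ := by linarith [abs_le.1 (tc h0 θ)]
  refine ⟨by unfold yy; positivity, ?_⟩
  rw [yy, inv_pow, show 4 = 2 * 2 from rfl, pow_mul, sq_sqrt (sqrt_nonneg _), sq_sqrt a.le,
    inv_mul_cancel₀ a.ne']

lemma cont_yy (h0 : 0 < t) (h1 : 12 * t ≤ 1) : Continuous (yy t) :=
  Continuous.inv₀ (by fun_prop) fun θ => (inv_pos.1 (yy_spec h0 h1 θ).1).ne'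

lemma yy_est (h0 : 0 < t) (h1 : 12 * t ≤ 1) (θ : ℝ) :
    1 - t * cos θ ≤ yy t θ ∧ yy t θ ≤ 1 - t * cos θ + 10 * t ^ 2 := by
  obtain ⟨y0, e⟩ := yy_spec h0 h1 θ
  obtain ⟨a, b⟩ := abs_le.1 (tc h0 θ)
  have c := sq_le_sq' a b
  rw [mul_assoc] at e
  generalize t * cos θ = x at *
  generalize yy t θ = y at *
  have p : 0 < 1 + 4 * x := by linarith
  have x2 := sq_nonneg x
  constructor
  · refine le_of_pow_le_pow_left₀ four_ne_zero y0.le (le_of_mul_le_mul_right ?_ p)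
    have : 0 ≤ 10 - 20 * x + 15 * x ^ 2 - 4 * x ^ 3 := by nlinarith
    nlinarith [mul_nonneg x2 this]
  · refine le_trans (le_of_pow_le_pow_left₀ four_ne_zero (b := 1 + (-x + 10 * x ^ 2))
      (by linarith) (le_of_mul_le_mul_right ?_ p)) (by linarith)
    have := mul_le_mul_of_nonneg_right
      (one_add_mul_le_pow (a := -x + 10 * x ^ 2) (by linarith) 4) p.le
    push_cast at this
    nlinarith [mul_nonneg x2 (show 0 ≤ 24 + 160 * x by linarith)]

/-- the area before normalisation -/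
noncomputable def ar (t : ℝ) : ℝ := ∫ θ in (-π)..π, yy t θ ^ 2 / 2

lemma ar_est (h0 : 0 < t) (h1 : 12 * t ≤ 1) : |ar t - π| ≤ 2 * π * (12 * t ^ 2) := by
  have c := cont_yy h0 h1
  have e : ∫ θ in (-π)..π, (1 / 2 - t * cos θ) = π := by
    rw [intervalIntegral.integral_sub (Continuous.intervalIntegrable (by fun_prop) _ _)
      (Continuous.intervalIntegrable (by fun_prop) _ _), intervalIntegral.integral_const_mul]
    simp; ring
  rw [ar]
  nth_rewrite 3 [← e]
  rw [← intervalIntegral.integral_sub (Continuous.intervalIntegrable (by fun_prop) _ _)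
    (Continuous.intervalIntegrable (by fun_prop) _ _)]
  refine abs_int fun θ => ?_
  obtain ⟨a, b⟩ := yy_est h0 h1 θ
  obtain ⟨a', b'⟩ := abs_le.1 (tc h0 θ)
  have d := sq_le_sq' a' b'
  have a2 := pow_le_pow_left₀ (by linarith) a 2
  have b2 := pow_le_pow_left₀ (by linarith) b 2
  have t2 : t ^ 2 ≤ 1 / 144 := by nlinarith
  rw [abs_le]
  constructor <;> nlinarith [sq_nonneg (t * cos θ), sq_nonneg t]

/-- radial function of the normalised body -/
noncomputable def r4 (t θ : ℝ) : ℝ := √(π / ar t) * yy t θ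

lemma ar_pos (h0 : 0 < t) (h1 : 12 * t ≤ 1) : π / 2 ≤ ar t := by
  have t2 : t ^ 2 ≤ 1 / 144 := by nlinarith
  nlinarith [abs_le.1 (ar_est h0 h1), pi_pos]

lemma r4_est (h0 : 0 < t) (h1 : 12 * t ≤ 1) (θ : ℝ) : |r4 t θ - 1 - t * -cos θ| ≤ 70 * t ^ 2 := by
  have hp := pi_pos
  have a := ar_pos h0 h1
  have a0 : 0 < ar t := by linarith
  have l : |√(π / ar t) - 1| ≤ 48 * t ^ 2 := by
    have e := sq_sqrt (div_pos hp a0).le
    have e0 := sqrt_nonneg (π / ar t)
    have : |π / ar t - 1| ≤ 48 * t ^ 2 := by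
      rw [div_sub_one a0.ne', abs_div, abs_of_pos a0, div_le_iff₀ a0, abs_sub_comm]
      nlinarith [ar_est h0 h1, sq_nonneg t]
    rw [← e, show √(π / ar t) ^ 2 - 1 = (√(π / ar t) - 1) * (√(π / ar t) + 1) by ring, abs_mul,
      abs_of_pos (a := √(π / ar t) + 1) (by linarith)] at this
    nlinarith [abs_nonneg (√(π / ar t) - 1)]
  obtain ⟨b, c⟩ := yy_est h0 h1 θ
  obtain ⟨a', b'⟩ := abs_le.1 (tc h0 θ)
  have t2 : t ^ 2 ≤ 1 / 144 := by nlinarith
  have y : yy t θ ≤ 5 / 4 := by linarith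
  have m : |(√(π / ar t) - 1) * yy t θ| ≤ 48 * t ^ 2 * (5 / 4) := by
    rw [abs_mul, abs_of_pos (yy_spec h0 h1 θ).1]
    exact mul_le_mul l y (yy_spec h0 h1 θ).1.le (by positivity)
  rw [abs_le] at m ⊢
  rw [r4]
  constructor <;> nlinarith [m.1, m.2]

lemma r4_area (h0 : 0 < t) (h1 : 12 * t ≤ 1) : ∫ θ in (-π)..π, r4 t θ ^ 2 / 2 = π := by
  have a0 : 0 < ar t := by linarith [ar_pos h0 h1, pi_pos]
  simp only [r4, mul_pow, mul_div_assoc]
  rw [intervalIntegral.integral_const_mul, sq_sqrt (div_pos pi_pos a0).le]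
  exact div_mul_cancel₀ _ a0.ne'

/-- the quartic body -/
def Bd (t : ℝ) : Set ℂ :=
  {z | (1 - 12 * t) * ‖z‖ ^ 4 + 16 * t * (z.re ^ 4 + z.im ^ 4) < √(π / ar t) ^ 4}

lemma convex_Bd (h0 : 0 < t) (h1 : 12 * t ≤ 1) : Convex ℝ (Bd t) := by
  have a : ConvexOn ℝ univ fun z : ℂ => ‖z‖ ^ 4 :=
    (convexOn_norm convex_univ).pow (fun z _ => norm_nonneg z) 4
  have b := (Even.convexOn_pow (𝕜 := ℝ) (n := 4) (by decide)).comp_linearMap Complex.reLm
  have c := (Even.convexOn_pow (𝕜 := ℝ) (n := 4) (by decide)).comp_linearMap Complex.imLm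
  rw [preimage_univ] at b c
  have := ((a.smul (c := 1 - 12 * t) (by linarith)).add ((b.add c).smul (c := 16 * t)
    (by linarith))).convex_lt (√(π / ar t) ^ 4)
  simpa [Bd] using this

lemma rad_Bd (h0 : 0 < t) (h1 : 12 * t ≤ 1) : Rad (Bd t) fun θ => r4 t (4 * θ) := by
  have c := cont_yy h0 h1
  have l : 0 < √(π / ar t) := sqrt_pos.2 (div_pos pi_pos (by linarith [ar_pos h0 h1, pi_pos]))
  refine ⟨(isOpen_lt (by fun_prop) continuous_const).measurableSet, by unfold r4; fun_prop,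
    by simpa [Bd] using pow_pos l 4, fun r hr θ => ?_⟩
  obtain ⟨y0, e⟩ := yy_spec h0 h1 (4 * θ)
  have a : 0 < 1 + 4 * t * cos (4 * θ) := by linarith [abs_le.1 (tc h0 (4 * θ))]
  have q : (1 - 12 * t) * r ^ 4 + 16 * t * ((r * cos θ) ^ 4 + (r * sin θ) ^ 4) =
      r ^ 4 * (1 + 4 * t * cos (4 * θ)) := by
    rw [show 4 * θ = 2 * (2 * θ) by ring, cos_two_mul, cos_two_mul]
    linear_combination (16 * t * r ^ 4 * (sin θ ^ 2 + 1 - cos θ ^ 2)) * sin_sq_add_cos_sq θ
  rw [Bd, mem_ofPred_eq, norm_pol hr.le, pol_re, pol_im, q, r4,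
    ← pow_lt_pow_iff_left₀ hr.le (mul_pos l y0).le four_ne_zero,
    ← mul_lt_mul_iff_left₀ (b := r ^ 4) a, mul_pow, mul_assoc (√_ ^ 4), e, mul_one]

lemma V_fin {S : Set ℂ} (hS : volume S ≠ ⊤) : V S φ ≠ ⊤ :=
  ne_top_of_le_ne_top (by rw [Measure.prod_prod, Measure.prod_prod]; finiteness)
    (measure_mono (t := S ×ˢ S ×ˢ S) fun p hp => ⟨hp.1, hp.2.1, hp.2.2.1⟩)

lemma vol_D : volume.real D = π := by simp [measureReal_def, Complex.volume_ball]

theorem main_loc (h1 : π / 3 < φ) (h2 : φ ≤ 13 * π / 36) {δ : ℝ} (hδ : 0 < δ) :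
    ∃ S : Set ℂ, MeasurableSet S ∧ Convex ℝ S ∧ 0 ∈ interior S ∧ ball 0 (1 - δ) ⊆ S ∧
      S ⊆ ball 0 (1 + δ) ∧ (volume D)⁻¹ ^ 3 * V D φ < (volume S)⁻¹ ^ 3 * V S φ := by
  have hp := pi_pos
  have hW := W_fin h2
  have hφ : φ < π / 2 := by linarith
  obtain ⟨β, hβ⟩ : ∃ β, β = B φ (fun θ => -cos (4 * θ)) - B φ fun θ => -cos θ := ⟨_, rfl⟩
  have β0 : 0 < β := hβ ▸ sub_pos.2 (B_lt h1 h2)
  have hG : Continuous fun r : ℝ => G φ r := (cont_G hW).comp Complex.continuous_ofReal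
  obtain ⟨η, η0, hη⟩ := Metric.continuousAt_iff.1 (hG.continuousAt (x := 1)) (β / (2000 * π))
    (by positivity)
  have ev : ∀ a b : ℝ, 0 < b → ∀ᶠ t in 𝓝[>] (0 : ℝ), a * t < b := fun a b hb =>
    ((continuous_const_mul a).continuousAt.eventually_lt_const
      (by simpa using hb)).filter_mono nhdsWithin_le_nhds
  obtain ⟨t, s1, s4, t0, t1, t2, t3⟩ := ((sv hφ hW (C := 1) zero_le_one
    (h := fun θ => -cos θ) (by fun_prop) (fun θ => by simpa using abs_cos_le_one θ) β0).and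
    ((sv hφ hW (C := 70) (by norm_num) (h := fun θ => -cos (4 * θ)) (by fun_prop)
      (fun θ => by simpa using abs_cos_le_one _) β0).and (Eventually.and self_mem_nhdsWithin
        ((ev 70 1 one_pos).and ((ev 2 η η0).and (ev 2 δ hδ)))))).exists
  have t0 : 0 < t := t0
  have t4 : 12 * t ≤ 1 := by linarith
  have R1 := rad_shift t0 (by linarith)
  have R4 := rad_Bd t0 t4
  have e1 := r1_est (t := t) (by nlinarith)
  have e4 := r4_est t0 t4
  have b : ∀ x θ, |x - 1 - t * -cos θ| ≤ 70 * t ^ 2 → |x - 1| ≤ 2 * t := fun x θ h => by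
    have := abs_le.1 (tc t0 θ)
    rw [abs_le] at h ⊢
    constructor <;> nlinarith
  have b1 := fun θ => b _ θ ((e1 θ).trans (by nlinarith))
  have b4 := fun θ => b _ θ (e4 θ)
  have c4 : Continuous (r4 t) := continuous_const.mul (cont_yy t0 t4)
  have p4 : ∀ F : ℝ → ℝ, Continuous F →
      ∫ θ in (-π)..π, F (r4 t (4 * θ)) = ∫ θ in (-π)..π, F (r4 t θ) := fun F hF => by
    simpa using per_mul (F := fun θ => F (r4 t θ)) (hF.comp c4) (fun θ => by simp [r4, yy])
      four_ne_zero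
  have cg : Continuous fun r : ℝ => r * G φ r := continuous_id.mul hG
  have cG : Continuous (Gm φ) :=
    intervalIntegral.continuous_primitive (fun _ _ => cg.intervalIntegrable _ _) 1
  have a1 := R1.area (fun θ => by linarith [abs_le.1 (b1 θ)]) fun θ => by linarith [abs_le.1 (b1 θ)]
  rw [measureReal_def, measure_preimage_add, ← measureReal_def, vol_D] at a1
  have a4 := R4.area (fun θ => by linarith [abs_le.1 (b4 (4 * θ))])
    fun θ => by linarith [abs_le.1 (b4 (4 * θ))]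
  rw [p4 (fun r => r ^ 2 / 2) (by fun_prop), r4_area t0 t4] at a4
  have k : |(∫ θ in (-π)..π, Gm φ (r4 t θ)) - ∫ θ in (-π)..π, Gm φ (r1 t θ)| ≤
      2 * π * (2 * (β / (2000 * π)) * (71 * t ^ 2)) := by
    have c1 := R1.cont
    have z : ∫ θ in (-π)..π, (r4 t θ ^ 2 / 2 - r1 t θ ^ 2 / 2) * G φ (1 : ℝ) = 0 := by
      rw [intervalIntegral.integral_mul_const, intervalIntegral.integral_sub
        (Continuous.intervalIntegrable (by fun_prop) _ _)
        (Continuous.intervalIntegrable (by fun_prop) _ _), r4_area t0 t4, ← a1, sub_self, zero_mul]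
    rw [← sub_zero (_ - _), ← z, ← intervalIntegral.integral_sub
      (Continuous.intervalIntegrable (by fun_prop) _ _)
      (Continuous.intervalIntegrable (by fun_prop) _ _), ← intervalIntegral.integral_sub
      (Continuous.intervalIntegrable (by fun_prop) _ _)
      (Continuous.intervalIntegrable (by fun_prop) _ _)]
    refine abs_int fun θ => ?_
    rw [Gm, Gm, intervalIntegral.integral_interval_sub_left (cg.intervalIntegrable _ _)
      (cg.intervalIntegrable _ _), ← sub_div]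
    refine (ray_est hG (by linarith) (b1 θ) (b4 θ) fun r hr => (hη (hr.trans_lt t2)).le).trans
      (mul_le_mul_of_nonneg_left ?_ (by positivity))
    have x := abs_le.1 (e1 θ)
    have y := abs_le.1 (e4 θ)
    rw [abs_le]
    constructor <;> linarith
  have s1 := s1 _ _ R1 (by simpa using e1)
  have s4 := s4 _ _ R4 fun θ => e4 _
  rw [V_shift measurableSet_ball] at s1
  rw [p4 _ cG] at s4
  have k' : 2 * π * (2 * (β / (2000 * π)) * (71 * t ^ 2)) = 71 / 500 * (β * t ^ 2) := by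
    field_simp; ring
  have pos : 0 < β * t ^ 2 := by positivity
  have fin : volume (Bd t) ≠ ⊤ := fun h => by simp [measureReal_def, h] at a4; linarith
  have fD : volume D ≠ ⊤ := measure_ball_lt_top.ne
  have vS : volume (Bd t) = volume D := by
    rw [← ENNReal.toReal_eq_toReal_iff' fin fD]
    exact a4.trans vol_D.symm
  refine ⟨Bd t, R4.meas, convex_Bd t0 t4, ?_, R4.sup fun θ => ?_,
    R4.sub (by linarith) fun θ => ?_, ?_⟩
  · exact mem_interior_iff_mem_nhds.2 (mem_of_superset (ball_mem_nhds 0 one_half_pos)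
      (R4.sup fun θ => by linarith [abs_le.1 (b4 (4 * θ))]))
  · linarith [abs_le.1 (b4 (4 * θ))]
  · linarith [abs_le.1 (b4 (4 * θ))]
  · rw [vS]
    refine ENNReal.mul_lt_mul_right (pow_ne_zero _ (ENNReal.inv_ne_zero.2 fD))
      (ENNReal.pow_ne_top (ENNReal.inv_ne_top.2 (measure_ball_pos _ _ one_pos).ne')) ?_
    rw [← ENNReal.toReal_lt_toReal (V_fin fD) (V_fin fin)]
    rw [k', abs_le] at k
    rw [abs_le] at s1 s4
    have := congrArg (t ^ 2 * ·) hβ
    nlinarith [k.1, s1.2, s4.1]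

lemma cond_closed : volume[|closedBall (0 : EuclideanSpace ℝ (Fin 2)) 1] = volume[|ball 0 1] := by
  have : closedBall (0 : EuclideanSpace ℝ (Fin 2)) 1 =ᵐ[volume] ball 0 1 := by
    rw [← ball_union_sphere]
    exact union_ae_eq_left_of_ae_eq_empty (ae_eq_empty.2 (Measure.addHaar_sphere _ _ _))
  rw [ProbabilityTheory.cond, ProbabilityTheory.cond, measure_congr this,
    Measure.restrict_congr_set this]

lemma haus {E : Type} [NormedAddCommGroup E] [NormedSpace ℝ E] {S : Set E} {δ : ℝ} (h0 : 0 < δ)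
    (h1 : δ ≤ 1 / 4) (a : ball 0 (1 - δ) ⊆ S) (b : S ⊆ ball 0 (1 + δ)) :
    hausdorffDist S (closedBall 0 1) ≤ 4 * δ := by
  have k : ∀ x : E, ‖x‖ ≤ 1 + δ → ‖(1 - 2 * δ) • x‖ < 1 - δ ∧ dist x ((1 - 2 * δ) • x) ≤ 4 * δ :=
    fun x hx => by
      have e : x - (1 - 2 * δ) • x = (2 * δ) • x := by module
      rw [dist_eq_norm, e, norm_smul, norm_smul, norm_of_nonneg (by linarith),
        norm_of_nonneg (by linarith)]
      constructor <;> nlinarith [norm_nonneg x]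
  refine hausdorffDist_le_of_mem_dist (by linarith) (fun x hx => ?_) fun x hx => ?_
  · obtain ⟨c, d⟩ := k x (mem_ball_zero_iff.1 (b hx)).le
    exact ⟨_, mem_closedBall_zero_iff.2 (by linarith), d⟩
  · obtain ⟨c, d⟩ := k x (by linarith [mem_closedBall_zero_iff.1 hx])
    exact ⟨_, a (mem_ball_zero_iff.2 c), d⟩

theorem main_haus (h1 : π / 3 < φ) (h2 : φ ≤ 13 * π / 36) {ε : ℝ} (hε : 0 < ε) :
    ∃ S : Set (EuclideanSpace ℝ (Fin 2)), MeasurableSet S ∧ Bornology.IsBounded S ∧ Convex ℝ S ∧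
      (interior S).Nonempty ∧ hausdorffDist S (closedBall 0 1) < ε ∧
      (volume[|closedBall (0 : EuclideanSpace ℝ (Fin 2)) 1]).prod
        ((volume[|closedBall (0 : EuclideanSpace ℝ (Fin 2)) 1]).prod
          (volume[|closedBall (0 : EuclideanSpace ℝ (Fin 2)) 1]))
        {p | max (∠ p.1 p.2.1 p.2.2) (max (∠ p.2.1 p.2.2 p.1) (∠ p.2.2 p.1 p.2.1)) ≤ φ} <
      (volume[|S]).prod ((volume[|S]).prod (volume[|S]))
        {p | max (∠ p.1 p.2.1 p.2.2) (max (∠ p.2.1 p.2.2 p.1) (∠ p.2.2 p.1 p.2.1)) ≤ φ} := by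
  have d0 : 0 < min (ε / 5) (1 / 4) := lt_min (by linarith) (by norm_num)
  obtain ⟨S, a1, a2, a3, a4, a5, a6⟩ := main_loc h1 h2 d0
  have b4 : ball 0 (1 - min (ε / 5) (1 / 4)) ⊆ toC ⁻¹' S := fun x hx => a4 (by simpa using hx)
  have b5 : toC ⁻¹' S ⊆ ball 0 (1 + min (ε / 5) (1 / 4)) := fun x hx => by simpa using a5 hx
  refine ⟨toC ⁻¹' S, toC.continuous.measurable a1, isBounded_ball.subset b5,
    a2.linear_preimage toC.toLinearEquiv.toLinearMap, ⟨0, mem_interior_iff_mem_nhds.2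
      (mem_of_superset (ball_mem_nhds 0 (by linarith [min_le_right (ε / 5) (1 / 4)])) b4)⟩,
    (haus d0 (min_le_right _ _) b4 b5).trans_lt (by linarith [min_le_left (ε / 5) (1 / 4)]), ?_⟩
  rwa [cond_closed, ← toC_ball, transfer measurableSet_ball, transfer a1]

end Pool.Agent.Lib.MP_92974c_pr.Loc
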