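import Pool.Agent.Lib.MP_92974c_pr.Square
import Pool.Agent.Lib.MP_92974c_pr.Disc

open MeasureTheory Set EuclideanGeometry
open scoped ENNReal Real

namespace Pool.Agent.Lib.MP_92974c_pr

open Classical in
/-- indicator of a proposition -/
noncomputable def ind (P : Prop) : ℝ≥0∞ := if P then 1 else 0

lemma ind_pos {P : Prop} (h : P) : ind P = 1 := if_pos h
lemma ind_neg {P : Prop} (h : ¬P) : ind P = 0 := if_neg h

lemma ind_and (P Q : Prop) : ind (P ∧ Q) = ind P * ind Q := by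
  by_cases hP : P <;> by_cases hQ : Q <;> simp [ind, hP, hQ]

lemma ind_eq {α : Type*} (s : Set α) (a : α) : indicator s (1 : α → ℝ≥0∞) a = ind (a ∈ s) := by
  by_cases h : a ∈ s <;> simp [ind, h]

lemma measurable_ind {α : Type*} [MeasurableSpace α] {P : α → Prop}
    (h : MeasurableSet {a | P a}) : Measurable fun a => ind (P a) := by
  have : (fun a => ind (P a)) = indicator {a | P a} (1 : α → ℝ≥0∞) := by
    funext a; rw [ind_eq]; rfl
  rw [this]; exact measurable_one.indicator h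

lemma lint_ind {α : Type*} [MeasurableSpace α] (μ : Measure α) {P : α → Prop}
    (h : MeasurableSet {a | P a}) : ∫⁻ a, ind (P a) ∂μ = μ {a | P a} := by
  rw [← lintegral_indicator_one h]
  refine lintegral_congr fun a => ?_
  rw [ind_eq]; rfl

lemma rot3 (h : ℂ → ℂ → ℂ → ℝ≥0∞) (hm : Measurable fun p : ℂ × ℂ × ℂ => h p.1 p.2.1 p.2.2) :
    ∫⁻ x, ∫⁻ y, ∫⁻ z, h x y z = ∫⁻ y, ∫⁻ z, ∫⁻ x, h x y z := by
  rw [lintegral_lintegral_swap]
  · congr 1; funext y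
    rw [lintegral_lintegral_swap]
    exact (hm.comp (f := fun p : ℂ × ℂ => (p.1, y, p.2)) (by fun_prop)).aemeasurable
  · exact (Measurable.lintegral_prod_right' (f := fun p : (ℂ × ℂ) × ℂ => h p.1.1 p.1.2 p.2)
      (hm.comp (f := fun p : (ℂ × ℂ) × ℂ => (p.1.1, p.1.2, p.2)) (by fun_prop))).aemeasurable

lemma swap13 (h : ℂ → ℂ → ℂ → ℝ≥0∞) (hm : Measurable fun p : ℂ × ℂ × ℂ => h p.1 p.2.1 p.2.2) :
    ∫⁻ x, ∫⁻ y, ∫⁻ z, h x y z = ∫⁻ z, ∫⁻ y, ∫⁻ x, h x y z := by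
  rw [rot3 h hm, lintegral_lintegral_swap]
  exact (Measurable.lintegral_prod_right' (f := fun p : (ℂ × ℂ) × ℂ => h p.2 p.1.1 p.1.2)
      (hm.comp (f := fun p : (ℂ × ℂ) × ℂ => (p.2, p.1.1, p.1.2)) (by fun_prop))).aemeasurable

/-- volume of the set of good triples in S -/
noncomputable def V (S : Set ℂ) (φ : ℝ) : ℝ≥0∞ :=
  (volume.prod (volume.prod volume))
    {p : ℂ × ℂ × ℂ | p.1 ∈ S ∧ p.2.1 ∈ S ∧ p.2.2 ∈ S ∧ Tri φ p.1 p.2.1 p.2.2}

lemma measurableSet_V {α : Type*} [MeasurableSpace α] {S : Set ℂ} (hS : MeasurableSet S) (φ : ℝ)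
    {f g h : α → ℂ} (hf : Measurable f) (hg : Measurable g) (hh : Measurable h) :
    MeasurableSet {a | f a ∈ S ∧ g a ∈ S ∧ h a ∈ S ∧ Tri φ (f a) (g a) (h a)} :=
  (hf hS).inter ((hg hS).inter ((hh hS).inter (measurableSet_tri φ hf hg hh)))

lemma V_eq {S : Set ℂ} (hS : MeasurableSet S) (φ : ℝ) :
    V S φ = ∫⁻ x, ∫⁻ y, ∫⁻ z, ind (x ∈ S ∧ y ∈ S ∧ z ∈ S ∧ Tri φ x y z) := by
  have hm : MeasurableSet
      {p : ℂ × ℂ × ℂ | p.1 ∈ S ∧ p.2.1 ∈ S ∧ p.2.2 ∈ S ∧ Tri φ p.1 p.2.1 p.2.2} :=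
    measurableSet_V hS φ (by fun_prop) (by fun_prop) (by fun_prop)
  rw [V, ← lint_ind _ hm, lintegral_prod _ (measurable_ind hm).aemeasurable]
  congr 1; funext x
  rw [lintegral_prod]
  exact (measurable_ind (measurableSet_V hS φ (f := fun _ : ℂ × ℂ => x) (by fun_prop)
    measurable_fst measurable_snd)).aemeasurable

lemma measurableSet_W (φ : ℝ) : MeasurableSet {w : ℂ | Tri φ 0 1 w} :=
  measurableSet_tri φ measurable_const measurable_const measurable_id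

lemma V_sq_lower {φ : ℝ} (hφ : φ < φ₀) :
    ENNReal.ofReal (π / 2 + √3 * π / 12 - 19 / 10 - π * (1 / 10 ^ 4)) *
      volume {w : ℂ | Tri φ 0 1 w} ≤ V Sq φ := by
  have hS := measurableSet_Sq
  let h : ℂ → ℂ → ℂ → ℝ≥0∞ := fun x d w => ind (Tri φ 0 1 w) *
    (ENNReal.ofReal (‖d‖ ^ 2) * ind (x ∈ Sq ∧ x + d ∈ Sq ∧ x + d * w ∈ Sq))
  have hm : Measurable fun p : ℂ × ℂ × ℂ => h p.1 p.2.1 p.2.2 := by
    refine Measurable.mul ((measurable_ind (measurableSet_W φ)).comp (by fun_prop))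
      (Measurable.mul (by fun_prop) (measurable_ind ?_))
    have m1 : Measurable fun p : ℂ × ℂ × ℂ => p.1 + p.2.1 := by fun_prop
    have m2 : Measurable fun p : ℂ × ℂ × ℂ => p.1 + p.2.1 * p.2.2 := by fun_prop
    exact (measurable_fst hS).inter ((m1 hS).inter (m2 hS))
  have step : ∫⁻ x, ∫⁻ d, ∫⁻ w, h x d w ≤ V Sq φ := by
    rw [V_eq hS]
    refine lintegral_mono fun x => ?_
    rw [← lintegral_add_left_eq_self
      (fun y => ∫⁻ z, ind (x ∈ Sq ∧ y ∈ Sq ∧ z ∈ Sq ∧ Tri φ x y z)) x]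
    refine lintegral_mono fun d => ?_
    by_cases hd : d = 0
    · simp [h, hd]
    have m : Measurable fun z => ind (x ∈ Sq ∧ x + d ∈ Sq ∧ z ∈ Sq ∧ Tri φ x (x + d) z) :=
      measurable_ind (measurableSet_V hS φ measurable_const measurable_const measurable_id)
    rw [lint_affine _ m d x hd, ← lintegral_const_mul' _ _ ENNReal.ofReal_ne_top]
    refine lintegral_mono fun w => le_of_eq ?_
    simp only [h, tri_affine' φ d x hd, ind_and]
    ring
  refine le_trans ?_ step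
  rw [swap13 h hm, ← lint_ind _ (measurableSet_W φ),
    ← lintegral_const_mul' _ _ ENNReal.ofReal_ne_top]
  refine lintegral_mono fun w => ?_
  by_cases hw : Tri φ 0 1 w
  · obtain ⟨σ, hσ, hn⟩ := near hφ hw
    simp only [h, ind_pos hw, one_mul, mul_one]
    refine (G_sq_lower hσ hn).trans (lintegral_mono fun d => le_of_eq ?_)
    rw [lintegral_const_mul' _ _ ENNReal.ofReal_ne_top, lint_ind]
    have m1 : Measurable fun x : ℂ => x + d := by fun_prop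
    have m2 : Measurable fun x : ℂ => x + d * w := by fun_prop
    exact hS.inter ((m1 hS).inter (m2 hS))
  · simp [ind_neg hw]

lemma measurableSet_t {α : Type*} [MeasurableSpace α] (φ : ℝ)
    {f g h : α → ℂ} (hf : Measurable f) (hg : Measurable g) (hh : Measurable h) :
    MeasurableSet {a | ‖f a‖ ≤ 1 ∧ ‖g a‖ ≤ ‖f a‖ ∧ ‖h a‖ ≤ ‖f a‖ ∧ Tri φ (f a) (g a) (h a)} :=
  (measurableSet_le hf.norm measurable_const).inter ((measurableSet_le hg.norm hf.norm).inter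
    ((measurableSet_le hh.norm hf.norm).inter (measurableSet_tri φ hf hg hh)))

lemma ae_ne_zero : ∀ᵐ x : ℂ, x ≠ 0 := compl_mem_ae_iff.mpr (measure_singleton (0 : ℂ))

lemma term_upper {φ : ℝ} (hφ : φ < φ₀) :
    ∫⁻ x, ∫⁻ y, ∫⁻ z, ind (‖x‖ ≤ 1 ∧ ‖y‖ ≤ ‖x‖ ∧ ‖z‖ ≤ ‖x‖ ∧ Tri φ x y z) ≤
      ENNReal.ofReal (π / 3) * (ENNReal.ofReal (π - 9 * √3 / 8 + 50 * π * (1 / 10 ^ 4)) *
        volume {w : ℂ | Tri φ 0 1 w}) := by
  let k : ℂ → ℂ → ℝ≥0∞ := fun d w => ind (Tri φ 0 1 w) *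
    (ENNReal.ofReal (‖d‖ ^ 2) * ind (‖1 - d‖ ≤ 1 ∧ ‖1 - d * w‖ ≤ 1))
  have hk : Measurable fun p : ℂ × ℂ => k p.1 p.2 :=
    Measurable.mul ((measurable_ind (measurableSet_W φ)).comp measurable_snd)
      (Measurable.mul (by fun_prop)
        (measurable_ind (measurableSet_lens measurable_fst measurable_snd)))
  have hK : ∫⁻ d, ∫⁻ w, k d w ≤ ENNReal.ofReal (π - 9 * √3 / 8 + 50 * π * (1 / 10 ^ 4)) *
      volume {w : ℂ | Tri φ 0 1 w} := by
    rw [lintegral_lintegral_swap hk.aemeasurable, ← lint_ind _ (measurableSet_W φ),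
      ← lintegral_const_mul' _ _ ENNReal.ofReal_ne_top]
    refine lintegral_mono fun w => ?_
    by_cases hw : Tri φ 0 1 w
    · obtain ⟨σ, hσ, hn⟩ := near hφ hw
      simp only [k, ind_pos hw, one_mul, mul_one]
      have := L_upper hσ hn (by norm_num)
      simp only [ind_eq] at this
      exact this
    · simp [k, ind_neg hw]
  refine le_trans ?_ (mul_le_mul' lint_norm4 hK)
  have hms : MeasurableSet {x : ℂ | ‖x‖ ≤ 1} := measurableSet_le (by fun_prop) measurable_const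
  have hm4 : Measurable fun x : ℂ => ENNReal.ofReal (‖x‖ ^ 4) *
      indicator {x : ℂ | ‖x‖ ≤ 1} (1 : ℂ → ℝ≥0∞) x :=
    Measurable.mul (by fun_prop) (measurable_one.indicator hms)
  rw [← lintegral_mul_const _ hm4]
  refine lintegral_mono_ae ?_
  filter_upwards [ae_ne_zero] with x hx
  have hxn : 0 < ‖x‖ := norm_pos_iff.mpr hx
  have m1 : Measurable fun y => ∫⁻ z, ind (‖x‖ ≤ 1 ∧ ‖y‖ ≤ ‖x‖ ∧ ‖z‖ ≤ ‖x‖ ∧ Tri φ x y z) :=
    Measurable.lintegral_prod_right' (f := fun p : ℂ × ℂ =>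
      ind (‖x‖ ≤ 1 ∧ ‖p.1‖ ≤ ‖x‖ ∧ ‖p.2‖ ≤ ‖x‖ ∧ Tri φ x p.1 p.2))
      (measurable_ind (measurableSet_t φ measurable_const measurable_fst measurable_snd))
  rw [lint_affine _ m1 (-x) x (neg_ne_zero.mpr hx), ← lintegral_const_mul' _ _ ENNReal.ofReal_ne_top,
    ← lintegral_const_mul _ (Measurable.lintegral_prod_right' hk)]
  refine lintegral_mono_ae ?_
  filter_upwards [ae_ne_zero] with d hd
  have m2 : Measurable fun z =>
      ind (‖x‖ ≤ 1 ∧ ‖x + -x * d‖ ≤ ‖x‖ ∧ ‖z‖ ≤ ‖x‖ ∧ Tri φ x (x + -x * d) z) :=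
    measurable_ind (measurableSet_t φ measurable_const measurable_const measurable_id)
  have hne : -x * d ≠ 0 := mul_ne_zero (neg_ne_zero.mpr hx) hd
  rw [lint_affine _ m2 (-x * d) x hne, ← lintegral_const_mul' _ _ ENNReal.ofReal_ne_top,
    ← lintegral_const_mul' _ _ ENNReal.ofReal_ne_top,
    ← lintegral_const_mul _ (f := fun w => k d w)
      (hk.comp (f := fun w : ℂ => (d, w)) (by fun_prop))]
  refine lintegral_mono fun w => le_of_eq ?_
  have e1 : ‖x + -x * d‖ ≤ ‖x‖ ↔ ‖1 - d‖ ≤ 1 := by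
    rw [show x + -x * d = x * (1 - d) by ring, norm_mul, mul_le_iff_le_one_right hxn]
  have e2 : ‖x + -x * d * w‖ ≤ ‖x‖ ↔ ‖1 - d * w‖ ≤ 1 := by
    rw [show x + -x * d * w = x * (1 - d * w) by ring, norm_mul, mul_le_iff_le_one_right hxn]
  have e3 : ENNReal.ofReal (‖-x‖ ^ 2) * ENNReal.ofReal (‖-x * d‖ ^ 2) =
      ENNReal.ofReal (‖x‖ ^ 4) * ENNReal.ofReal (‖d‖ ^ 2) := by
    rw [← ENNReal.ofReal_mul (by positivity), ← ENNReal.ofReal_mul (by positivity), norm_mul,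
      norm_neg]
    congr 1; ring
  simp only [k, tri_affine' φ (-x * d) x hne, e1, e2, ind_and, ind_eq, mem_ofPred_eq]
  rw [← mul_assoc, e3]
  ring

lemma V_disc_upper {φ : ℝ} (hφ : φ < φ₀) :
    V (Metric.ball 0 1) φ ≤ ENNReal.ofReal π *
      (ENNReal.ofReal (π - 9 * √3 / 8 + 50 * π * (1 / 10 ^ 4)) * volume {w : ℂ | Tri φ 0 1 w}) := by
  let t : ℂ → ℂ → ℂ → ℝ≥0∞ := fun x y z =>
    ind (‖x‖ ≤ 1 ∧ ‖y‖ ≤ ‖x‖ ∧ ‖z‖ ≤ ‖x‖ ∧ Tri φ x y z)
  have mt : ∀ {α : Type} [MeasurableSpace α] {f g h : α → ℂ}, Measurable f → Measurable g →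
      Measurable h → Measurable fun a => t (f a) (g a) (h a) :=
    fun hf hg hh => measurable_ind (measurableSet_t φ hf hg hh)
  have r1 : ∫⁻ x, ∫⁻ y, ∫⁻ z, t y z x = ∫⁻ x, ∫⁻ y, ∫⁻ z, t x y z :=
    rot3 (fun x y z => t y z x) (mt (by fun_prop) (by fun_prop) (by fun_prop))
  have r2 : ∫⁻ x, ∫⁻ y, ∫⁻ z, t z x y = ∫⁻ x, ∫⁻ y, ∫⁻ z, t x y z :=
    (rot3 (fun x y z => t x y z) (mt (by fun_prop) (by fun_prop) (by fun_prop))).symm
  have hsum : V (Metric.ball 0 1) φ ≤ (∫⁻ x, ∫⁻ y, ∫⁻ z, t x y z) + (∫⁻ x, ∫⁻ y, ∫⁻ z, t y z x) +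
      ∫⁻ x, ∫⁻ y, ∫⁻ z, t z x y := by
    have i2 : ∀ (h : ℂ → ℂ → ℂ → ℝ≥0∞),
        (Measurable fun p : (ℂ × ℂ) × ℂ => h p.1.1 p.1.2 p.2) →
        Measurable fun x => ∫⁻ y, ∫⁻ z, h x y z := fun h hm =>
      Measurable.lintegral_prod_right' (f := fun p : ℂ × ℂ => ∫⁻ z, h p.1 p.2 z)
        (Measurable.lintegral_prod_right' hm)
    have i1 : ∀ (h : ℂ → ℂ → ℝ≥0∞), (Measurable fun p : ℂ × ℂ => h p.1 p.2) →
        Measurable fun y => ∫⁻ z, h y z := fun h hm => Measurable.lintegral_prod_right' hm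
    rw [V_eq measurableSet_ball,
      ← lintegral_add_left (i2 (fun x y z => t x y z)
        (mt (by fun_prop) (by fun_prop) (by fun_prop))),
      ← lintegral_add_right _ (i2 (fun x y z => t z x y)
        (mt (by fun_prop) (by fun_prop) (by fun_prop)))]
    refine lintegral_mono fun x => ?_
    rw [← lintegral_add_left (i1 (fun y z => t x y z)
        (mt (by fun_prop) (by fun_prop) (by fun_prop))),
      ← lintegral_add_right _ (i1 (fun y z => t z x y)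
        (mt (by fun_prop) (by fun_prop) (by fun_prop)))]
    refine lintegral_mono fun y => ?_
    rw [← lintegral_add_left (f := fun z => t x y z)
        (mt (by fun_prop) (by fun_prop) (by fun_prop)),
      ← lintegral_add_right _ (g := fun z => t z x y)
        (mt (by fun_prop) (by fun_prop) (by fun_prop))]
    refine lintegral_mono fun z => ?_
    by_cases hxyz : x ∈ Metric.ball (0 : ℂ) 1 ∧ y ∈ Metric.ball (0 : ℂ) 1 ∧
      z ∈ Metric.ball (0 : ℂ) 1 ∧ Tri φ x y z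
    · rw [ind_pos hxyz]
      obtain ⟨hx, hy, hz, ht⟩ := hxyz
      rw [mem_ball_zero_iff] at hx hy hz
      by_cases c1 : ‖y‖ ≤ ‖x‖ ∧ ‖z‖ ≤ ‖x‖
      · have : t x y z = 1 := ind_pos ⟨hx.le, c1.1, c1.2, ht⟩
        rw [this, add_assoc]; exact le_self_add
      by_cases c2 : ‖z‖ ≤ ‖y‖ ∧ ‖x‖ ≤ ‖y‖
      · have : t y z x = 1 := ind_pos ⟨hy.le, c2.1, c2.2, Tri.rot.mp ht⟩
        rw [this]; exact le_add_self.trans le_self_add
      · have : t z x y = 1 := by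
          refine ind_pos ⟨hz.le, ?_, ?_, Tri.rot.mpr ht⟩ <;> by_contra hc <;> push Not at * <;>
            rcases le_total ‖x‖ ‖y‖ with h | h
          · linarith [c2 (by linarith)]
          · linarith [c1 h]
          · linarith [c2 (by linarith)]
          · linarith [c1 h]
        rw [this]; exact le_add_self
    · rw [ind_neg hxyz]; exact zero_le
  rw [r1, r2] at hsum
  have ht := term_upper hφ
  refine hsum.trans ((add_le_add (add_le_add ht ht) ht).trans (le_of_eq ?_))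
  rw [← add_mul, ← add_mul, ← ENNReal.ofReal_add (by positivity) (by positivity),
    ← ENNReal.ofReal_add (by positivity) (by positivity)]
  congr 2; ring

theorem main_complex {φ : ℝ} (h1 : π / 3 < φ) (h2 : φ < φ₀) :
    (ENNReal.ofReal π)⁻¹ ^ 3 * V (Metric.ball 0 1) φ < V Sq φ := by
  have hpi := Real.pi_pos
  have hp1 := Real.pi_gt_d4
  have hp2 := Real.pi_lt_d4
  have s1 : 1.732 < √3 := by rw [Real.lt_sqrt (by norm_num)]; norm_num
  refine lt_of_lt_of_le ?_ (V_sq_lower h2)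
  refine lt_of_le_of_lt (mul_le_mul' le_rfl (V_disc_upper h2)) ?_
  rw [← mul_assoc, ← mul_assoc]
  refine ENNReal.mul_lt_mul_left (W_pos h1).ne' (W_lt_top h2).ne ?_
  rw [← ENNReal.ofReal_inv_of_pos hpi, ← ENNReal.ofReal_pow (by positivity),
    ← ENNReal.ofReal_mul (by positivity), ← ENNReal.ofReal_mul (by positivity)]
  have hA : π - 9 * √3 / 8 + 50 * π * (1 / 10 ^ 4) ≤ 1.2089 := by nlinarith
  have hB : 0.1238 ≤ π / 2 + √3 * π / 12 - 19 / 10 - π * (1 / 10 ^ 4) := by nlinarith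
  have hC : π⁻¹ ^ 3 * π ≤ 0.10133 := by
    have : π⁻¹ ^ 3 * π = (π ^ 2)⁻¹ := by field_simp
    rw [this, inv_le_comm₀ (by positivity) (by norm_num)]
    nlinarith
  rw [ENNReal.ofReal_lt_ofReal_iff (by linarith)]
  have hD : 0 ≤ π⁻¹ ^ 3 * π := by positivity
  calc π⁻¹ ^ 3 * π * (π - 9 * √3 / 8 + 50 * π * (1 / 10 ^ 4)) ≤ π⁻¹ ^ 3 * π * 1.2089 := by gcongr
    _ ≤ 0.10133 * 1.2089 := by gcongr
    _ < 0.1238 := by norm_num
    _ ≤ _ := hB

end Pool.Agent.Lib.MP_92974c_pr
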