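import Pool.Agent.Lib.MP_92974c_pr.Near

open MeasureTheory Set EuclideanGeometry
open scoped ENNReal Real

namespace Pool.Agent.Lib.MP_92974c_pr

/-- the unit square in the complex plane -/
def Sq : Set ℂ := {z | z.re ∈ Icc (0 : ℝ) 1 ∧ z.im ∈ Icc (0 : ℝ) 1}

lemma measurableSet_Sq : MeasurableSet Sq :=
  (Complex.measurable_re measurableSet_Icc).inter (Complex.measurable_im measurableSet_Icc)

lemma volume_rect (a b c d : ℝ) :
    volume {z : ℂ | z.re ∈ Icc a b ∧ z.im ∈ Icc c d} =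
      ENNReal.ofReal (b - a) * ENNReal.ofReal (d - c) := by
  have h := Complex.volume_preserving_equiv_real_prod.measure_preimage
    (s := Icc a b ×ˢ Icc c d) (measurableSet_Icc.prod measurableSet_Icc).nullMeasurableSet
  rw [Measure.volume_eq_prod, Measure.prod_prod, Real.volume_Icc, Real.volume_Icc] at h
  rw [← h]
  rfl

lemma volume_Sq : volume Sq = 1 := by
  rw [Sq, volume_rect]; simp

/-- spread of 0, p, q -/
def spr (p q : ℝ) : ℝ := max |p| (max |q| |q - p|)

lemma area_lower (d e : ℂ) :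
    ENNReal.ofReal (1 - spr d.re e.re) * ENNReal.ofReal (1 - spr d.im e.im) ≤
      volume {x : ℂ | x ∈ Sq ∧ x + d ∈ Sq ∧ x + e ∈ Sq} := by
  have aux : ∀ p q : ℝ, 1 - spr p q ≤ (1 - max 0 (max p q)) - (-min 0 (min p q)) := by
    intro p q
    have h1 : |p| ≤ spr p q := le_max_left _ _
    have h2 : |q| ≤ spr p q := (le_max_left _ _).trans (le_max_right _ _)
    have h3 : |q - p| ≤ spr p q := (le_max_right _ _).trans (le_max_right _ _)
    rw [abs_le] at h1 h2 h3
    simp only [max_def, min_def]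
    split_ifs <;> linarith [h1.1, h1.2, h2.1, h2.2, h3.1, h3.2]
  refine le_trans ?_ (measure_mono (s := {z : ℂ | z.re ∈ Icc (-min 0 (min d.re e.re))
    (1 - max 0 (max d.re e.re)) ∧ z.im ∈ Icc (-min 0 (min d.im e.im))
    (1 - max 0 (max d.im e.im))}) ?_)
  · rw [volume_rect]
    exact mul_le_mul' (ENNReal.ofReal_le_ofReal (aux _ _)) (ENNReal.ofReal_le_ofReal (aux _ _))
  · rintro z ⟨⟨h1, h2⟩, h3, h4⟩
    have a1 := min_le_left 0 (min d.re e.re)
    have a2 := (min_le_right 0 (min d.re e.re)).trans (min_le_left _ _)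
    have a3 := (min_le_right 0 (min d.re e.re)).trans (min_le_right _ _)
    have b1 := le_max_left 0 (max d.re e.re)
    have b2 := (le_max_left _ _).trans (le_max_right 0 (max d.re e.re))
    have b3 := (le_max_right _ _).trans (le_max_right 0 (max d.re e.re))
    have c1 := min_le_left 0 (min d.im e.im)
    have c2 := (min_le_right 0 (min d.im e.im)).trans (min_le_left _ _)
    have c3 := (min_le_right 0 (min d.im e.im)).trans (min_le_right _ _)
    have d1 := le_max_left 0 (max d.im e.im)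
    have d2 := (le_max_left _ _).trans (le_max_right 0 (max d.im e.im))
    have d3 := (le_max_right _ _).trans (le_max_right 0 (max d.im e.im))
    simp only [Sq, mem_ofPred_eq, mem_Icc, Complex.add_re, Complex.add_im]
    refine ⟨⟨⟨?_, ?_⟩, ?_, ?_⟩, ⟨⟨?_, ?_⟩, ?_, ?_⟩, ⟨?_, ?_⟩, ?_, ?_⟩ <;> linarith

/-- width of the equilateral triangle with unit side vector (c, s) -/
noncomputable def wd (c s : ℝ) : ℝ := max |c| (max |c / 2 - √3 / 2 * s| |c / 2 + √3 / 2 * s|)

lemma wd_nonneg (c s : ℝ) : 0 ≤ wd c s := (abs_nonneg _).trans (le_max_left _ _)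

lemma wd_le_one {c s : ℝ} (h : c ^ 2 + s ^ 2 = 1) : wd c s ≤ 1 := by
  have s3 : (√3) ^ 2 = 3 := Real.sq_sqrt (by norm_num)
  refine max_le ?_ (max_le ?_ ?_) <;> apply abs_le_of_sq_le_sq' _ (by norm_num) |> abs_le.mpr
  · nlinarith [sq_nonneg s]
  · nlinarith [sq_nonneg (√3 / 2 * c + s / 2)]
  · nlinarith [sq_nonneg (√3 / 2 * c - s / 2)]

lemma spr_le {σ : ℝ} (hσ : σ = 1 ∨ σ = -1) {r c s u δ : ℝ} (hr : 0 ≤ r) (hu : |u| ≤ δ) :
    spr (r * c) (r * (c / 2 - σ * (√3 / 2) * s) + u) ≤ r * wd c s + δ := by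
  have hδ : 0 ≤ δ := (abs_nonneg _).trans hu
  have h1 : |c| ≤ wd c s := le_max_left _ _
  have h2 : |c / 2 - √3 / 2 * s| ≤ wd c s := (le_max_left _ _).trans (le_max_right _ _)
  have h3 : |c / 2 + √3 / 2 * s| ≤ wd c s := (le_max_right _ _).trans (le_max_right _ _)
  have g : ∀ t, |t| ≤ wd c s → |r * t + u| ≤ r * wd c s + δ := by
    intro t ht
    refine (abs_add_le _ _).trans (add_le_add ?_ hu)
    rw [abs_mul, abs_of_nonneg hr]; gcongr
  refine max_le ?_ (max_le ?_ ?_)
  · rw [abs_mul, abs_of_nonneg hr]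
    have : r * |c| ≤ r * wd c s := by gcongr
    linarith
  · apply g
    rcases hσ with rfl | rfl
    · simpa using h2
    · convert h3 using 2; ring
  · have : r * (c / 2 - σ * (√3 / 2) * s) + u - r * c = r * (-(c / 2 + σ * (√3 / 2) * s)) + u := by
      ring
    rw [this]
    apply g
    rw [abs_neg]
    rcases hσ with rfl | rfl
    · simpa using h3
    · convert h2 using 2; ring

lemma prod_lower {a b a' b' δ : ℝ} (ha : 0 ≤ a) (ha1 : a ≤ 1) (hb : 0 ≤ b) (hb1 : b ≤ 1)
    (hδ : 0 ≤ δ) (h1 : a' ≤ a + δ) (h2 : b' ≤ b + δ) :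
    ENNReal.ofReal ((1 - a) * (1 - b) - 2 * δ) ≤
      ENNReal.ofReal (1 - a') * ENNReal.ofReal (1 - b') := by
  by_cases h : δ ≤ 1 - a ∧ δ ≤ 1 - b
  · rw [← ENNReal.ofReal_mul (by linarith [h.1])]
    apply ENNReal.ofReal_le_ofReal
    have : (1 - a - δ) * (1 - b - δ) ≤ (1 - a') * (1 - b') := by
      apply mul_le_mul <;> linarith [h.1, h.2]
    nlinarith
  · rw [ENNReal.ofReal_of_nonpos]
    · exact zero_le
    · rw [not_and_or] at h
      rcases h with h | h <;> push Not at h <;> nlinarith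

/-- angular integrand for the square -/
noncomputable def Isq (θ : ℝ) : ℝ :=
  1 / 4 - (wd (Real.cos θ) (Real.sin θ) + wd (Real.sin θ) (Real.cos θ)) / 5 +
    wd (Real.cos θ) (Real.sin θ) * wd (Real.sin θ) (Real.cos θ) / 6

lemma continuous_Isq : Continuous Isq := by
  unfold Isq wd; fun_prop

lemma periodic_Isq : Function.Periodic Isq (π / 6) := by
  intro θ
  have s3 : √3 * √3 = 3 := Real.mul_self_sqrt (by norm_num)
  have h1 : wd (Real.cos (θ + π / 6)) (Real.sin (θ + π / 6)) = wd (Real.sin θ) (Real.cos θ) := by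
    unfold wd
    rw [Real.cos_add, Real.sin_add, Real.cos_pi_div_six, Real.sin_pi_div_six]
    have e1 : Real.cos θ * (√3 / 2) - Real.sin θ * (1 / 2) =
      -(Real.sin θ / 2 - √3 / 2 * Real.cos θ) := by ring
    have e2 : (Real.cos θ * (√3 / 2) - Real.sin θ * (1 / 2)) / 2 -
      √3 / 2 * (Real.sin θ * (√3 / 2) + Real.cos θ * (1 / 2)) = -Real.sin θ := by
      linear_combination (-Real.sin θ / 4) * s3
    have e3 : (Real.cos θ * (√3 / 2) - Real.sin θ * (1 / 2)) / 2 +
      √3 / 2 * (Real.sin θ * (√3 / 2) + Real.cos θ * (1 / 2)) =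
      Real.sin θ / 2 + √3 / 2 * Real.cos θ := by
      linear_combination (Real.sin θ / 4) * s3
    rw [e2, e3, e1, abs_neg, abs_neg, max_left_comm]
  have h2 : wd (Real.sin (θ + π / 6)) (Real.cos (θ + π / 6)) = wd (Real.cos θ) (Real.sin θ) := by
    unfold wd
    rw [Real.cos_add, Real.sin_add, Real.cos_pi_div_six, Real.sin_pi_div_six]
    have e1 : Real.sin θ * (√3 / 2) + Real.cos θ * (1 / 2) =
      Real.cos θ / 2 + √3 / 2 * Real.sin θ := by ring
    have e2 : (Real.sin θ * (√3 / 2) + Real.cos θ * (1 / 2)) / 2 -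
      √3 / 2 * (Real.cos θ * (√3 / 2) - Real.sin θ * (1 / 2)) =
      -(Real.cos θ / 2 - √3 / 2 * Real.sin θ) := by
      linear_combination (-Real.cos θ / 4) * s3
    have e3 : (Real.sin θ * (√3 / 2) + Real.cos θ * (1 / 2)) / 2 +
      √3 / 2 * (Real.cos θ * (√3 / 2) - Real.sin θ * (1 / 2)) = Real.cos θ := by
      linear_combination (Real.cos θ / 4) * s3
    rw [e2, e3, e1, abs_neg, max_comm, max_comm |Real.cos θ / 2 - √3 / 2 * Real.sin θ|, max_assoc]
  unfold Isq
  rw [h1, h2]; ring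

lemma Isq_eq {θ : ℝ} (h0 : 0 ≤ θ) (h1 : θ ≤ π / 6) :
    Isq θ = 1 / 4 - (Real.cos θ + (Real.sin θ / 2 + √3 / 2 * Real.cos θ)) / 5 +
      Real.cos θ * (Real.sin θ / 2 + √3 / 2 * Real.cos θ) / 6 := by
  have hpi := Real.pi_pos
  have s3 : √3 * √3 = 3 := Real.mul_self_sqrt (by norm_num)
  have s3' : 1.7 < √3 := by
    rw [Real.lt_sqrt (by norm_num)]; norm_num
  have hs : 0 ≤ Real.sin θ := Real.sin_nonneg_of_nonneg_of_le_pi h0 (by linarith)
  have hs1 : Real.sin θ ≤ 1 / 2 := by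
    rw [← Real.sin_pi_div_six]
    apply Real.sin_le_sin_of_le_of_le_pi_div_two <;> linarith
  have hc : √3 / 2 ≤ Real.cos θ := by
    rw [← Real.cos_pi_div_six]
    apply Real.cos_le_cos_of_nonneg_of_le_pi <;> linarith
  set c := Real.cos θ
  set s := Real.sin θ
  have k1 : 0 ≤ √3 / 2 * s := by positivity
  have k2 : √3 / 2 * s ≤ c / 2 := by nlinarith
  have k3 : s / 2 ≤ √3 / 2 * c := by nlinarith
  have e1 : wd c s = c := by
    unfold wd
    rw [abs_of_nonneg (by linarith : 0 ≤ c), abs_of_nonneg (by linarith), abs_of_nonneg (by linarith)]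
    apply max_eq_left
    apply max_le <;> linarith
  have e2 : wd s c = s / 2 + √3 / 2 * c := by
    unfold wd
    rw [abs_of_nonneg hs, abs_of_nonpos (by linarith), abs_of_nonneg (by linarith)]
    rw [max_eq_right (by linarith : -(s / 2 - √3 / 2 * c) ≤ s / 2 + √3 / 2 * c)]
    apply max_eq_right; linarith
  unfold Isq
  rw [e1, e2]

lemma integral_Isq : ∫ θ in (-π)..π, Isq θ = π / 2 + √3 * π / 12 - 19 / 10 := by
  have s3 : √3 * √3 = 3 := Real.mul_self_sqrt (by norm_num)
  have hpi := Real.pi_pos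
  have h := periodic_Isq.intervalIntegral_add_zsmul_eq 12 (-π)
    (fun a b => continuous_Isq.intervalIntegrable a b)
  have e : -π + (12 : ℤ) • (π / 6) = π := by simp; ring
  rw [e, periodic_Isq.intervalIntegral_add_eq (-π) 0, zero_add] at h
  rw [h]
  have h2 : ∫ θ in (0 : ℝ)..π / 6, Isq θ = ∫ θ in (0 : ℝ)..π / 6,
      (1 / 4 - (Real.cos θ + (Real.sin θ / 2 + √3 / 2 * Real.cos θ)) / 5 +
      Real.cos θ * (Real.sin θ / 2 + √3 / 2 * Real.cos θ) / 6) := by
    apply intervalIntegral.integral_congr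
    intro θ hθ
    rw [uIcc_of_le (by linarith)] at hθ
    exact Isq_eq hθ.1 hθ.2
  rw [h2]
  have h3 := intervalIntegral.integral_eq_sub_of_hasDerivAt (a := 0) (b := π / 6)
    (f := fun θ : ℝ => θ / 4 - ((1 + √3 / 2) * Real.sin θ - Real.cos θ / 2) / 5 +
      (√3 / 2 * (θ / 2 + Real.sin θ * Real.cos θ / 2) + Real.sin θ * Real.sin θ / 4) / 6)
    (f' := fun θ : ℝ => 1 / 4 - (Real.cos θ + (Real.sin θ / 2 + √3 / 2 * Real.cos θ)) / 5 +
      Real.cos θ * (Real.sin θ / 2 + √3 / 2 * Real.cos θ) / 6) ?_ ?_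
  · rw [h3]
    simp only [Real.cos_pi_div_six, Real.sin_pi_div_six, Real.sin_zero, Real.cos_zero, zsmul_eq_mul]
    push_cast
    linear_combination (1 / 8) * s3
  · intro θ _
    have hs := Real.hasDerivAt_sin θ
    have hc := Real.hasDerivAt_cos θ
    have hid := hasDerivAt_id' θ
    have := ((hid.div_const 4).sub (((hs.const_mul (1 + √3 / 2)).sub (hc.div_const 2)).div_const 5)).add
      (((((hid.div_const 2).add ((hs.mul hc).div_const 2)).const_mul (√3 / 2)).add
        ((hs.mul hs).div_const 4)).div_const 6)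
    refine HasDerivAt.congr_deriv this ?_
    have h5 := Real.sin_sq_add_cos_sq θ
    linear_combination (-√3 / 24) * h5
  · apply Continuous.intervalIntegrable; fun_prop

lemma inner_sq (a b δ : ℝ) :
    ∫ r in (0 : ℝ)..1, r ^ 3 * ((1 - r * a) * (1 - r * b) - 2 * δ) =
      1 / 4 - (a + b) / 5 + a * b / 6 - δ / 2 := by
  have : ∀ r : ℝ, r ^ 3 * ((1 - r * a) * (1 - r * b) - 2 * δ) =
      (1 - 2 * δ) * r ^ 3 - (a + b) * r ^ 4 + (a * b) * r ^ 5 := by intro r; ring
  simp_rw [this]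
  rw [intervalIntegral.integral_add, intervalIntegral.integral_sub]
  · simp only [intervalIntegral.integral_const_mul, integral_pow]
    norm_num; ring
  all_goals apply Continuous.intervalIntegrable; fun_prop

lemma measurableSet_three (w : ℂ) :
    MeasurableSet {p : ℂ × ℂ | p.2 ∈ Sq ∧ p.2 + p.1 ∈ Sq ∧ p.2 + p.1 * w ∈ Sq} :=
  (measurable_snd measurableSet_Sq).inter
    (((measurable_snd.add measurable_fst) measurableSet_Sq).inter
      ((measurable_snd.add (measurable_fst.mul_const w)) measurableSet_Sq))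

lemma G_sq_lower {σ : ℝ} (hσ : σ = 1 ∨ σ = -1) {w : ℂ} {δ : ℝ} (hw : ‖w - om σ‖ ≤ δ) :
    ENNReal.ofReal (π / 2 + √3 * π / 12 - 19 / 10 - π * δ) ≤
      ∫⁻ d : ℂ, ENNReal.ofReal (‖d‖ ^ 2) * volume {x : ℂ | x ∈ Sq ∧ x + d ∈ Sq ∧ x + d * w ∈ Sq} := by
  have hδ : 0 ≤ δ := (norm_nonneg _).trans hw
  have hpi := Real.pi_pos
  have hm : Measurable fun d : ℂ =>
      ENNReal.ofReal (‖d‖ ^ 2) * volume {x : ℂ | x ∈ Sq ∧ x + d ∈ Sq ∧ x + d * w ∈ Sq} := by
    refine Measurable.mul (by fun_prop) ?_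
    exact measurable_measure_prodMk_left (ν := volume) (measurableSet_three w)
  rw [lint_polar _ hm]
  have e1 : π / 2 + √3 * π / 12 - 19 / 10 - π * δ = ∫ θ in Ioo (-π) π, (Isq θ - δ / 2) := by
    rw [← integral_Ioc_eq_integral_Ioo, ← intervalIntegral.integral_of_le (by linarith),
      intervalIntegral.integral_sub (continuous_Isq.intervalIntegrable _ _) (by simp),
      integral_Isq]
    simp; ring
  rw [e1]
  refine (ofReal_integral_le ?_).trans (lintegral_mono fun θ => ?_)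
  · exact ((continuous_Isq.sub continuous_const).integrableOn_Icc).mono_set Ioo_subset_Icc_self
  set c := Real.cos θ with hc
  set s := Real.sin θ with hs
  have hcs : c ^ 2 + s ^ 2 = 1 := Real.cos_sq_add_sin_sq θ
  have e2 : Isq θ - δ / 2 =
      ∫ r in Ioc (0 : ℝ) 1, r ^ 3 * ((1 - r * wd c s) * (1 - r * wd s c) - 2 * δ) := by
    rw [← intervalIntegral.integral_of_le zero_le_one, inner_sq]; rfl
  rw [e2]
  refine (ofReal_integral_le ?_).trans ?_
  · apply (Continuous.integrableOn_Icc (by fun_prop)).mono_set Ioc_subset_Icc_self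
  refine le_trans ?_ (lintegral_mono_set (s := Ioc (0 : ℝ) 1) Ioc_subset_Ioi_self)
  refine setLIntegral_mono' measurableSet_Ioc fun r hr => ?_
  have hr0 : 0 ≤ r := hr.1.le
  rw [norm_pol hr0, ← mul_assoc, ← ENNReal.ofReal_mul hr0,
    ENNReal.ofReal_mul (by positivity : 0 ≤ r ^ 3), show r * r ^ 2 = r ^ 3 by ring]
  gcongr
  refine le_trans ?_ (area_lower _ _)
  have hu : ‖pol r θ * (w - om σ)‖ ≤ δ := by
    rw [norm_mul, norm_pol hr0]
    calc r * ‖w - om σ‖ ≤ 1 * δ := by gcongr; exact hr.2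
      _ = δ := one_mul _
  have hdw : pol r θ * w = pol r θ * om σ + pol r θ * (w - om σ) := by ring
  have w1 := wd_le_one hcs
  have w2 : wd s c ≤ 1 := wd_le_one (by linarith)
  apply prod_lower (mul_nonneg hr0 (wd_nonneg _ _)) (mul_le_one₀ hr.2 (wd_nonneg _ _) w1)
    (mul_nonneg hr0 (wd_nonneg _ _)) (mul_le_one₀ hr.2 (wd_nonneg _ _) w2) hδ
  · have := spr_le hσ (c := c) (s := s) hr0 ((Complex.abs_re_le_norm _).trans hu)
    convert this using 2
    · exact pol_re r θ
    · rw [hdw, Complex.add_re, Complex.mul_re, pol_re, pol_im]; simp only [om]; ring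
  · have hσ' : -σ = 1 ∨ -σ = -1 := by rcases hσ with rfl | rfl <;> simp
    have := spr_le hσ' (c := s) (s := c) hr0 ((Complex.abs_im_le_norm _).trans hu)
    convert this using 2
    · exact pol_im r θ
    · rw [hdw, Complex.add_im, Complex.mul_im, pol_re, pol_im]; simp only [om]; ring

end Pool.Agent.Lib.MP_92974c_pr
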